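import Mathlib

/-!
# Constant depth formulas with AND, OR, NOT and MOD_q gates
-/

namespace Pool.Agent.Helper70.AC

/-- `Ckt q n d s f`: the function `f` of `n` bits is computed by a formula of depth at most `d` and
size at most `s` with AND, OR and MOD `q` gates of unbounded fan-in (a MOD `q` gate asks whether
the number of its true inputs is divisible by `q`) and with free negations. -/
inductive Ckt (q n : ℕ) : ℕ → ℕ → ((Fin n → Bool) → Bool) → Prop
  | const (b : Bool) : Ckt q n 0 1 (fun _ => b)
  | input (i : Fin n) : Ckt q n 0 1 (fun x => x i)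
  | neg {d s : ℕ} {f : (Fin n → Bool) → Bool} (h : Ckt q n d s f) : Ckt q n d s (fun x => !(f x))
  | conj {d k : ℕ} (s : Fin k → ℕ) (f : Fin k → (Fin n → Bool) → Bool)
      (h : ∀ i, Ckt q n d (s i) (f i)) :
      Ckt q n (d + 1) ((∑ i, s i) + 1) (fun x => decide (∀ i, f i x = true))
  | disj {d k : ℕ} (s : Fin k → ℕ) (f : Fin k → (Fin n → Bool) → Bool)
      (h : ∀ i, Ckt q n d (s i) (f i)) :
      Ckt q n (d + 1) ((∑ i, s i) + 1) (fun x => decide (∃ i, f i x = true))
  | modq {d k : ℕ} (s : Fin k → ℕ) (f : Fin k → (Fin n → Bool) → Bool)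
      (h : ∀ i, Ckt q n d (s i) (f i)) :
      Ckt q n (d + 1) ((∑ i, s i) + 1)
        (fun x => decide (q ∣ (Finset.univ.filter (fun i => f i x = true)).card))
  | weaken {d s : ℕ} {f : (Fin n → Bool) → Bool} (d' s' : ℕ) (hd : d ≤ d') (hs : s ≤ s')
      (h : Ckt q n d s f) : Ckt q n d' s' f

open Classical in
/-- The language `S` has formulas of constant depth and polynomial size with AND, OR, NOT and MOD
`q` gates. -/
def ConstDepth (q : ℕ) (S : Set (List Bool)) : Prop :=
  ∃ d k : ℕ, ∀ n, Ckt q n d (n ^ k + k) (fun x => decide (List.ofFn x ∈ S))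

/-- parity of the number of true bits -/
def par {n : ℕ} (x : Fin n → Bool) : Bool :=
  decide (Odd (Finset.univ.filter (fun i => x i = true)).card)

/-- a Boolean as an element of `ZMod q` -/
def bz (q : ℕ) (b : Bool) : ZMod q := if b then 1 else 0

/-- the monomial of the set `A` -/
def mon (q : ℕ) {n : ℕ} (A : Finset (Fin n)) (x : Fin n → Bool) : ZMod q := ∏ i ∈ A, bz q (x i)

/-- functions on the cube of degree at most `D` -/
def Low (q n D : ℕ) : Submodule (ZMod q) ((Fin n → Bool) → ZMod q) :=
  Submodule.span (ZMod q) (mon q '' {A : Finset (Fin n) | A.card ≤ D})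

/-- `π` is a projection: every output bit is constant, an input bit or a negated input bit. -/
def IsProj {n m : ℕ} (π : (Fin n → Bool) → Fin m → Bool) : Prop :=
  ∀ j, (∃ b, ∀ x, π x j = b) ∨ (∃ i, ∀ x, π x j = x i) ∨ ∃ i, ∀ x, π x j = !(x i)

end Pool.Agent.Helper70.AC
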