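import Mathlib
import Pool.Agent.Helper70.AC.Defs

/-!
Module A7: projections preserve depth and size; finite sets of words per length.
-/

namespace Pool.Agent.Helper70.AC

theorem Ckt.proj {q n m d s : ℕ} {f : (Fin m → Bool) → Bool} (h : Ckt q m d s f)
    {π : (Fin n → Bool) → Fin m → Bool} (hπ : IsProj π) : Ckt q n d s (fun x => f (π x)) := by
  induction h with
  | const b => exact Ckt.const b
  | input i =>
    rcases hπ i with ⟨b, hb⟩ | ⟨j, hj⟩ | ⟨j, hj⟩
    · have h1 : (fun x => π x i) = fun _ => b := funext hb
      rw [h1]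
      exact Ckt.const b
    · have h1 : (fun x => π x i) = fun x => x j := funext hj
      rw [h1]
      exact Ckt.input j
    · have h1 : (fun x => π x i) = fun x => !(x j) := funext hj
      rw [h1]
      exact Ckt.neg (Ckt.input j)
  | neg _ ih => exact Ckt.neg ih
  | conj s f _ ih => exact Ckt.conj s (fun i x => f i (π x)) ih
  | disj s f _ ih => exact Ckt.disj s (fun i x => f i (π x)) ih
  | modq s f _ ih => exact Ckt.modq s (fun i x => f i (π x)) ih
  | weaken d' s' hd hs _ ih => exact Ckt.weaken d' s' hd hs ih

/-- one point -/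
theorem a7_point {q n : ℕ} (a : Fin n → Bool) : Ckt q n 1 (n + 1) (fun x => decide (x = a)) := by
  have h1 : ∀ j : Fin n, Ckt q n 0 1 (fun x => decide (x j = a j)) := by
    intro j
    cases h : a j with
    | true =>
      have h2 : (fun x : Fin n → Bool => decide (x j = true)) = fun x => x j := by
        funext x
        simp
      rw [h2]
      exact Ckt.input j
    | false =>
      have h2 : (fun x : Fin n → Bool => decide (x j = false)) = fun x => !(x j) := by
        funext x
        cases x j <;> rfl
      rw [h2]
      exact Ckt.neg (Ckt.input j)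
  have h3 := Ckt.conj (fun _ => 1) (fun (j : Fin n) (x : Fin n → Bool) => decide (x j = a j)) h1
  have h4 : (∑ _i : Fin n, 1) + 1 = n + 1 := by simp
  rw [h4] at h3
  convert h3 using 2
  rw [decide_eq_decide]
  simp [funext_iff]

open Classical in
/-- A set of words with at most `N` words of length `n` has a disjunctive normal form. -/
theorem Ckt.of_sparse {q n N : ℕ} (S : Set (List Bool))
    (hS : {w : List Bool | w ∈ S ∧ w.length = n}.ncard ≤ N) :
    Ckt q n 2 (N * (n + 1) + 1) (fun x => decide (List.ofFn x ∈ S)) := by
  set F : Finset (Fin n → Bool) := Finset.univ.filter fun x => List.ofFn x ∈ S with hF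
  have hcard : F.card ≤ N := by
    refine le_trans ?_ hS
    have h1 : (List.ofFn '' (F : Set (Fin n → Bool))) ⊆
        {w : List Bool | w ∈ S ∧ w.length = n} := by
      rintro _ ⟨x, hx, rfl⟩
      exact ⟨(Finset.mem_filter.1 hx).2, List.length_ofFn⟩
    have h2 : {w : List Bool | w ∈ S ∧ w.length = n}.Finite :=
      (List.finite_length_eq Bool n).subset fun w hw => hw.2
    have h3 := Set.ncard_le_ncard h1 h2
    rw [Set.ncard_image_of_injective _ List.ofFn_injective, Set.ncard_coe_finset] at h3
    exact h3
  set e : Fin F.card ≃ F := F.equivFin.symm with he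
  have h4 := Ckt.disj (q := q) (n := n) (fun _ => n + 1)
    (fun (i : Fin F.card) (x : Fin n → Bool) => decide (x = (e i).1)) (fun i => a7_point (e i).1)
  have h5 : (∑ _i : Fin F.card, (n + 1)) + 1 = F.card * (n + 1) + 1 := by simp
  rw [h5] at h4
  have h6 : (fun x : Fin n → Bool => decide (List.ofFn x ∈ S)) =
      fun x => decide (∃ i : Fin F.card, decide (x = (e i).1) = true) := by
    funext x
    rw [decide_eq_decide]
    constructor
    · intro hx
      have hxF : x ∈ F := Finset.mem_filter.2 ⟨Finset.mem_univ _, hx⟩
      exact ⟨e.symm ⟨x, hxF⟩, by simp⟩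
    · rintro ⟨i, hi⟩
      have h7 : x = (e i).1 := by simpa using hi
      rw [h7]
      exact (Finset.mem_filter.1 (e i).2).2
  rw [h6]
  refine Ckt.weaken 2 _ le_rfl ?_ h4
  exact Nat.succ_le_succ (Nat.mul_le_mul_right _ hcard)

end Pool.Agent.Helper70.AC
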