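import Mathlib
import Pool.Agent.Helper70.AC.Defs

/-!
Languages with small formulas of constant depth
-/

namespace Pool.Agent.Helper70.AC

open Classical in
/-- the characteristic function of the words of length `n` that belong to `S` -/
noncomputable def slice (S : Set (List Bool)) (n : ℕ) (x : Fin n → Bool) : Bool :=
  decide (List.ofFn x ∈ S)

/-- The language `S` has formulas of constant depth and size `2 ^ (n ^ o(1))` with AND, OR, NOT and
MOD `q` gates: for some depth `d` and for every `k`, the words of length `n` of `S` are, for all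
large `n`, recognized by a formula of depth `d` and size `2 ^ l` with `l ^ k ≤ n`. -/
def SmallDepth (q : ℕ) (S : Set (List Bool)) : Prop :=
  ∃ d : ℕ, ∀ k : ℕ, ∃ n0 : ℕ, ∀ n ≥ n0, ∃ l : ℕ, l ^ k ≤ n ∧ Ckt q n d (2 ^ l) (slice S n)

/-- The language `S` has formulas of depth `d` and polynomial size. -/
def PolyDepth (q d : ℕ) (S : Set (List Bool)) : Prop :=
  ∃ k : ℕ, ∀ n, Ckt q n d (n ^ k + k) (slice S n)

end Pool.Agent.Helper70.AC
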