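import Mathlib
import Pool.Agent.Helper70.AC.A7
import Pool.Agent.Helper70.AC.Defs2
import Pool.Agent.Helper72.Defs

/-!
Outputs of machines are unique, and the Kolmogorov class has at most `2 ^ (g n + 1)` words of
length `n`.
-/

namespace Pool.Agent.Helper70.AC

open Turing Computability Pool.Agent.Helper72

theorem haltList_inj (tm : FinTM2) {s t : List (tm.Γ tm.k₁)} (h : haltList tm s = haltList tm t) :
    s = t := by
  have h1 : (haltList tm s).stk tm.k₁ = (haltList tm t).stk tm.k₁ := by rw [h]
  simpa [haltList] using h1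

theorem iter_none {σ : Type*} (f : σ → Option σ) (k : ℕ) :
    (flip bind f)^[k] none = none := by
  induction k with
  | zero => rfl
  | succ k ih => rw [Function.iterate_succ_apply]; exact ih

theorem outputs_unique {M : TM2ComputableAux Bool Bool} {y x x' : List Bool} {t t' : ℕ}
    (h : Outputs M y x t) (h' : Outputs M y x' t') : x = x' := by
  obtain ⟨h⟩ := h
  obtain ⟨h'⟩ := h'
  have key : ∀ (c c' : M.tm.Cfg) (a : Option M.tm.Cfg) (i j : ℕ), i ≤ j →
      (flip bind M.tm.step)^[i] a = some c → (flip bind M.tm.step)^[j] a = some c' →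
      M.tm.step c = none → c = c' := by
    intro c c' a i j hij hi hj hc
    obtain ⟨k, rfl⟩ := Nat.exists_eq_add_of_le hij
    rw [Nat.add_comm, Function.iterate_add_apply, hi] at hj
    cases k with
    | zero => exact Option.some_injective _ hj
    | succ k =>
      rw [Function.iterate_succ_apply] at hj
      have : flip bind M.tm.step (some c) = none := hc
      rw [this, iter_none] at hj
      exact absurd hj (by simp)
  have hh : ∀ s, M.tm.step (haltList M.tm s) = none := fun s => rfl
  have h1 := h.evals_in_steps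
  have h2 := h'.evals_in_steps
  have heq : haltList M.tm (x.map M.outputAlphabet.invFun) =
      haltList M.tm (x'.map M.outputAlphabet.invFun) := by
    rcases le_total h.steps h'.steps with hle | hle
    · exact key _ _ _ _ _ hle h1 h2 (hh _)
    · exact (key _ _ _ _ _ hle h2 h1 (hh _)).symm
  have h3 := haltList_inj _ heq
  exact List.map_injective_iff.2 M.outputAlphabet.symm.injective h3

/-- number of words of length `n` in the class -/
theorem card_KClass (U : TM2ComputableAux Bool Bool) (g G : ℕ → ℕ) (n : ℕ) :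
    {w : List Bool | w ∈ KClass U g G ∩ SAT ∧ w.length = n}.ncard ≤ 2 ^ (g n + 1) := by
  classical
  set Y : Set (List Bool) := {y | y.length ≤ g n} with hY
  have hYfin : Y.Finite := List.finite_length_le Bool (g n)
  have hYcard : Y.ncard ≤ 2 ^ (g n + 1) := by
    have h1 : Y ⊆ ⋃ i ∈ Finset.range (g n + 1), {y : List Bool | y.length = i} := by
      intro y hy
      simp only [Set.mem_iUnion, Finset.mem_range]
      exact ⟨y.length, Nat.lt_succ_of_le hy, rfl⟩
    have h2 : ∀ i, {y : List Bool | y.length = i}.ncard = 2 ^ i := by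
      intro i
      have h3 : Nat.card {y : List Bool | y.length = i} = 2 ^ i := by
        have h4 : Nat.card (List.Vector Bool i) = 2 ^ i := by simp
        exact h4
      rw [← h3]
      rfl
    have h5 : ∀ m : ℕ, (⋃ i ∈ Finset.range m, {y : List Bool | y.length = i}).Finite ∧
        (⋃ i ∈ Finset.range m, {y : List Bool | y.length = i}).ncard ≤ 2 ^ m := by
      intro m
      induction m with
      | zero => simp
      | succ m ih =>
        rw [Finset.range_add_one, Finset.set_biUnion_insert]
        refine ⟨(List.finite_length_eq Bool m).union ih.1, ?_⟩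
        refine (Set.ncard_union_le _ _).trans ?_
        rw [h2, pow_succ]
        have := ih.2
        omega
    exact (Set.ncard_le_ncard h1 (h5 _).1).trans (h5 _).2
  have hf : ∀ w ∈ {w : List Bool | w ∈ KClass U g G ∩ SAT ∧ w.length = n},
      ∃ y ∈ Y, ∃ t, Outputs U y w t := by
    rintro w ⟨⟨⟨y, hy, t, -, ho⟩, -⟩, rfl⟩
    exact ⟨y, hy, t, ho⟩
  choose! f hfY hft using hf
  refine (Set.ncard_le_ncard_of_injOn f hfY ?_ hYfin).trans hYcard
  intro w hw w' hw' hww
  obtain ⟨t, ht⟩ := hft w hw
  obtain ⟨t', ht'⟩ := hft w' hw'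
  rw [← hww] at ht'
  exact outputs_unique ht ht'

/-- If `g(n) = O(log n)` then the Kolmogorov class cut with SAT has disjunctive normal forms of
polynomial size. -/
theorem kclass_dnf (U : TM2ComputableAux Bool Bool) (g G : ℕ → ℕ) (c : ℕ)
    (hg : ∀ n, g n ≤ c * Nat.clog 2 n + c) (q : ℕ) :
    PolyDepth q 2 (KClass U g G ∩ SAT) := by
  refine ⟨2 ^ (2 * c + 3) + 3 * c + 4, fun n => ?_⟩
  refine Ckt.weaken 2 _ le_rfl ?_ (Ckt.of_sparse (N := 2 ^ (g n + 1)) (KClass U g G ∩ SAT)
    (card_KClass U g G n))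
  have hpow : 2 ^ (2 * c + 3) = 8 * (2 ^ c * 2 ^ c) := by
    rw [two_mul, pow_add, pow_add]; ring
  rcases Nat.eq_zero_or_pos n with rfl | hn
  · have h1 : 2 ^ (g 0 + 1) ≤ 2 ^ (c + 1) := by
      apply Nat.pow_le_pow_right (by norm_num)
      have := hg 0
      simp at this
      omega
    have h2 : (2 : ℕ) ^ (c + 1) ≤ 2 ^ (2 * c + 3) :=
      Nat.pow_le_pow_right (by norm_num) (by omega)
    have h3 := h1.trans h2
    rw [zero_add, mul_one]
    generalize 2 ^ (g 0 + 1) = A at h3 ⊢
    generalize 2 ^ (2 * c + 3) = B at h3 ⊢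
    refine le_trans ?_ (Nat.le_add_left _ _)
    omega
  · have h1 : 2 ^ Nat.clog 2 n ≤ 2 * n := by
      rcases Nat.lt_or_ge n 2 with h | h
      · have : n = 1 := by omega
        subst this
        simp
      · have h3 : 2 ^ (Nat.clog 2 n - 1) < n := by
          have := Nat.pow_pred_clog_lt_self (b := 2) (by norm_num) (x := n) (by omega)
          simpa using this
        have h4 : 1 ≤ Nat.clog 2 n := Nat.clog_pos (by norm_num) h
        obtain ⟨j, hj⟩ := Nat.exists_eq_add_of_le h4
        rw [hj] at h3 ⊢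
        rw [Nat.add_sub_cancel_left] at h3
        rw [pow_add]
        omega
    have h2 : 2 ^ (g n + 1) ≤ 2 * (2 ^ c * 2 ^ c) * n ^ c := by
      calc 2 ^ (g n + 1) ≤ 2 ^ (c * Nat.clog 2 n + c + 1) :=
            Nat.pow_le_pow_right (by norm_num) (by have := hg n; omega)
        _ = 2 * 2 ^ c * (2 ^ Nat.clog 2 n) ^ c := by
            rw [pow_add, pow_add, ← pow_mul, mul_comm c]; ring
        _ ≤ 2 * 2 ^ c * (2 * n) ^ c := Nat.mul_le_mul_left _ (Nat.pow_le_pow_left h1 _)
        _ = _ := by rw [mul_pow]; ring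
    have h5 : 2 ^ (g n + 1) * (n + 1) + 1 ≤ 2 ^ (2 * c + 3) * n ^ (c + 1) := by
      have h6 : n + 1 ≤ 2 * n := by omega
      have h7 : 1 ≤ n ^ (c + 1) := Nat.one_le_pow _ _ hn
      have h8 : 1 ≤ 2 ^ c * 2 ^ c := Nat.one_le_iff_ne_zero.2 (by positivity)
      calc 2 ^ (g n + 1) * (n + 1) + 1
          ≤ (2 * (2 ^ c * 2 ^ c) * n ^ c) * (2 * n) + (2 ^ c * 2 ^ c) * n ^ (c + 1) := by
            apply Nat.add_le_add (Nat.mul_le_mul h2 h6)
            exact Nat.one_le_iff_ne_zero.2 (Nat.mul_ne_zero (by omega) (by omega))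
        _ = 5 * ((2 ^ c * 2 ^ c) * n ^ (c + 1)) := by rw [pow_succ n c]; ring
        _ ≤ 8 * ((2 ^ c * 2 ^ c) * n ^ (c + 1)) := Nat.mul_le_mul_right _ (by norm_num)
        _ = _ := by rw [hpow]; ring
    refine h5.trans ?_
    rcases Nat.lt_or_ge n 2 with h | h
    · have : n = 1 := by omega
      subst this
      simp only [one_pow, mul_one]
      omega
    · calc 2 ^ (2 * c + 3) * n ^ (c + 1) ≤ n ^ (2 * c + 3) * n ^ (c + 1) :=
            Nat.mul_le_mul_right _ (Nat.pow_le_pow_left h _)
        _ = n ^ (3 * c + 4) := by rw [← pow_add]; congr 1; ring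
        _ ≤ n ^ (2 ^ (2 * c + 3) + 3 * c + 4) := Nat.pow_le_pow_right hn (by omega)
        _ ≤ _ := Nat.le_add_right _ _

end Pool.Agent.Helper70.AC
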