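import Mathlib
import Pool.Agent.Helper70.AC.Defs

/-!
Module A0: algebra of functions of low degree on the cube.
-/

namespace Pool.Agent.Helper70.AC

variable {q n : ℕ}

theorem a0_mon_eq (A : Finset (Fin n)) (x : Fin n → Bool) :
    mon q A x = if ∀ i ∈ A, x i = true then 1 else 0 := by
  unfold mon bz
  rw [Finset.prod_ite_zero]
  simp

theorem a0_mon_mul (A B : Finset (Fin n)) : mon q A * mon q B = mon q (A ∪ B) := by
  funext x
  rw [Pi.mul_apply, a0_mon_eq, a0_mon_eq, a0_mon_eq]
  by_cases h1 : ∀ i ∈ A, x i = true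
  · by_cases h2 : ∀ i ∈ B, x i = true
    · rw [if_pos h1, if_pos h2, if_pos, mul_one]
      intro i hi
      rcases Finset.mem_union.1 hi with h | h
      · exact h1 i h
      · exact h2 i h
    · have h3 : ¬ ∀ i ∈ A ∪ B, x i = true :=
        fun h => h2 fun i hi => h i (Finset.mem_union_right _ hi)
      rw [if_neg h2, if_neg h3, mul_zero]
  · have h3 : ¬ ∀ i ∈ A ∪ B, x i = true :=
      fun h => h1 fun i hi => h i (Finset.mem_union_left _ hi)
    rw [if_neg h1, if_neg h3, zero_mul]

theorem Low.mono {D D' : ℕ} (h : D ≤ D') : Low q n D ≤ Low q n D' :=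
  Submodule.span_mono (Set.image_mono fun _ hA => le_trans hA h)

theorem Low.mon_mem {D : ℕ} {A : Finset (Fin n)} (h : A.card ≤ D) : mon q A ∈ Low q n D :=
  Submodule.subset_span ⟨A, h, rfl⟩

theorem Low.const_mem (D : ℕ) (c : ZMod q) : (fun _ => c) ∈ Low q n D := by
  have h1 : (fun _ : Fin n → Bool => c) = c • mon q (∅ : Finset (Fin n)) := by
    funext x
    simp [mon]
  rw [h1]
  exact Submodule.smul_mem _ _ (Low.mon_mem (by simp))

theorem Low.input_mem {D : ℕ} (h : 1 ≤ D) (i : Fin n) :
    (fun x => bz q (x i)) ∈ Low q n D := by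
  have h1 : (fun x : Fin n → Bool => bz q (x i)) = mon q {i} := by
    funext x
    simp [mon]
  rw [h1]
  exact Low.mon_mem (by simpa using h)

theorem Low.mul_mem {D D' : ℕ} {f g : (Fin n → Bool) → ZMod q} (hf : f ∈ Low q n D)
    (hg : g ∈ Low q n D') : (fun x => f x * g x) ∈ Low q n (D + D') := by
  have h1 : f * g ∈ Low q n D * Low q n D' := Submodule.mul_mem_mul hf hg
  have h2 : Low q n D * Low q n D' ≤ Low q n (D + D') := by
    rw [Low, Low, Submodule.span_mul_span]
    refine Submodule.span_le.2 ?_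
    rintro _ ⟨_, ⟨A, hA, rfl⟩, _, ⟨B, hB, rfl⟩, rfl⟩
    show mon q A * mon q B ∈ Low q n (D + D')
    rw [a0_mon_mul]
    exact Low.mon_mem ((Finset.card_union_le A B).trans (Nat.add_le_add hA hB))
  exact h2 h1

theorem Low.pow_mem {D : ℕ} {f : (Fin n → Bool) → ZMod q} (hf : f ∈ Low q n D) (k : ℕ) :
    (fun x => f x ^ k) ∈ Low q n (k * D) := by
  induction k with
  | zero => simpa using Low.const_mem (q := q) (n := n) (0 * D) 1
  | succ k ih =>
    have h1 := Low.mul_mem ih hf
    rw [Nat.succ_mul]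
    simpa [pow_succ] using h1

theorem Low.prod_mem {ι : Type*} (s : Finset ι) {D : ℕ} {f : ι → (Fin n → Bool) → ZMod q}
    (hf : ∀ i ∈ s, f i ∈ Low q n D) : (fun x => ∏ i ∈ s, f i x) ∈ Low q n (s.card * D) := by
  classical
  induction s using Finset.induction_on with
  | empty => simpa using Low.const_mem (q := q) (n := n) (0 * D) 1
  | insert a s ha ih =>
    have h1 := Low.mul_mem (hf a (Finset.mem_insert_self a s))
      (ih fun i hi => hf i (Finset.mem_insert_of_mem hi))
    rw [Finset.card_insert_of_notMem ha, Nat.succ_mul, Nat.add_comm]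
    simpa [Finset.prod_insert ha] using h1

/-- Product of the signs `1 - 2 x_i`, `i ∈ A`, has degree at most `A.card`. -/
theorem Low.sign_mem (A : Finset (Fin n)) :
    (fun x => ∏ i ∈ A, (1 - 2 * bz q (x i))) ∈ Low q n A.card := by
  have h1 : ∀ i ∈ A, (fun x : Fin n → Bool => (1 - 2 * bz q (x i) : ZMod q)) ∈ Low q n 1 := by
    intro i _
    have h2 := Submodule.sub_mem _ (Low.const_mem (q := q) (n := n) 1 1)
      (Submodule.smul_mem _ (2 : ZMod q) (Low.input_mem (q := q) (D := 1) le_rfl i))
    exact h2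
  have h3 := Low.prod_mem A h1
  rwa [Nat.mul_one] at h3

/-- dimension bound -/
theorem Low.finrank_le [Fact q.Prime] (D : ℕ) :
    Module.finrank (ZMod q) (Low q n D) ≤ ∑ i ∈ Finset.range (D + 1), n.choose i := by
  classical
  set s : Finset (Finset (Fin n)) := (Finset.range (D + 1)).biUnion
    (fun i => Finset.powersetCard i Finset.univ) with hs
  have h1 : Low q n D = Submodule.span (ZMod q) (((s.image (mon q) :
      Finset ((Fin n → Bool) → ZMod q)) : Set ((Fin n → Bool) → ZMod q))) := by
    unfold Low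
    congr 1
    ext f
    simp only [Set.mem_image, Set.mem_ofPred_eq, Finset.coe_image, Finset.mem_coe, hs,
      Finset.mem_biUnion, Finset.mem_range, Finset.mem_powersetCard, Finset.subset_univ, true_and]
    constructor
    · rintro ⟨A, hA, rfl⟩
      exact ⟨A, ⟨A.card, by omega, rfl⟩, rfl⟩
    · rintro ⟨A, ⟨i, hi, rfl⟩, rfl⟩
      exact ⟨A, by omega, rfl⟩
  rw [h1]
  have h2 := finrank_span_finset_le_card (R := ZMod q) (s.image (mon q))
  refine le_trans h2 (Finset.card_image_le.trans (Finset.card_biUnion_le.trans ?_))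
  refine Finset.sum_le_sum fun i _ => ?_
  rw [Finset.card_powersetCard, Finset.card_univ, Fintype.card_fin]

end Pool.Agent.Helper70.AC
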