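import Mathlib
import Pool.Agent.Helper70.AC.A0

/-!
Module A1: Razborov's approximation of one OR gate.
-/

namespace Pool.Agent.Helper70.AC

variable {q n : ℕ}

/-- the random polynomial -/
def a1R (q : ℕ) {n k : ℕ} (l : ℕ) (P : Fin k → (Fin n → Bool) → ZMod q)
    (a : Fin l → Fin k → ZMod q) (x : Fin n → Bool) : ZMod q :=
  1 - ∏ j, (1 - (∑ i, a j i * P i x) ^ (q - 1))

theorem a1R_mem {k D : ℕ} (l : ℕ) (P : Fin k → (Fin n → Bool) → ZMod q)
    (hP : ∀ i, P i ∈ Low q n D) (a : Fin l → Fin k → ZMod q) :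
    a1R q l P a ∈ Low q n ((q - 1) * l * D) := by
  have h1 : ∀ j, (fun x => ∑ i, a j i * P i x) ∈ Low q n D := by
    intro j
    have : (fun x => ∑ i, a j i * P i x) = ∑ i, a j i • P i := by
      funext x
      simp [Finset.sum_apply]
    rw [this]
    exact Submodule.sum_mem _ fun i _ => Submodule.smul_mem _ _ (hP i)
  have h2 : ∀ j, (fun x => 1 - (∑ i, a j i * P i x) ^ (q - 1)) ∈ Low q n ((q - 1) * D) :=
    fun j => Submodule.sub_mem _ (Low.const_mem _ 1) (Low.pow_mem (h1 j) (q - 1))
  have h3 := Low.prod_mem (Finset.univ : Finset (Fin l)) (fun j _ => h2 j)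
  have h4 : (Finset.univ : Finset (Fin l)).card * ((q - 1) * D) = (q - 1) * l * D := by
    rw [Finset.card_univ, Fintype.card_fin]
    ring
  rw [h4] at h3
  exact Submodule.sub_mem _ (Low.const_mem _ 1) h3

theorem a1_half [Fact q.Prime] {k : ℕ} (v : Fin k → ZMod q) (hv : ∃ i, v i ≠ 0) :
    (Finset.univ.filter (fun b : Fin k → ZMod q => ∑ i, b i * v i = 0)).card * 2 ≤
      Fintype.card (Fin k → ZMod q) := by
  classical
  obtain ⟨i₀, hi₀⟩ := hv
  set N := Finset.univ.filter (fun b : Fin k → ZMod q => ∑ i, b i * v i = 0) with hN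
  set e : Fin k → ZMod q := Pi.single i₀ 1 with he
  have hsum : ∀ b : Fin k → ZMod q, ∑ i, (b + e) i * v i = (∑ i, b i * v i) + v i₀ := by
    intro b
    simp only [Pi.add_apply, add_mul, Finset.sum_add_distrib, he, Pi.single_apply, ite_mul,
      one_mul, zero_mul, Finset.sum_ite_eq', Finset.mem_univ, if_true]
  have hdis : Disjoint N (N.image (fun b => b + e)) := by
    rw [Finset.disjoint_left]
    intro b hb hb'
    rw [Finset.mem_image] at hb'
    obtain ⟨c, hc, rfl⟩ := hb'
    rw [hN, Finset.mem_filter] at hb hc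
    rw [hsum, hc.2, zero_add] at hb
    exact hi₀ hb.2
  have hcard : (N.image (fun b => b + e)).card = N.card :=
    Finset.card_image_of_injective _ (add_left_injective e)
  calc N.card * 2 = N.card + (N.image (fun b => b + e)).card := by rw [hcard]; ring
    _ = (N ∪ N.image (fun b => b + e)).card := (Finset.card_union_of_disjoint hdis).symm
    _ ≤ _ := Finset.card_le_univ _

theorem a1_bad [Fact q.Prime] {k : ℕ} (l : ℕ) (P : Fin k → (Fin n → Bool) → ZMod q)
    (x : Fin n → Bool) :
    (Finset.univ.filter (fun a : Fin l → Fin k → ZMod q =>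
      (∃ i, P i x ≠ 0) ∧ a1R q l P a x ≠ 1)).card * 2 ^ l ≤
      Fintype.card (Fin l → Fin k → ZMod q) := by
  classical
  by_cases hx : ∃ i, P i x ≠ 0
  · have hsub : Finset.univ.filter (fun a : Fin l → Fin k → ZMod q =>
        (∃ i, P i x ≠ 0) ∧ a1R q l P a x ≠ 1) ⊆
        Fintype.piFinset (fun _ : Fin l =>
          Finset.univ.filter (fun b : Fin k → ZMod q => ∑ i, b i * P i x = 0)) := by
      intro a ha
      rw [Finset.mem_filter] at ha
      rw [Fintype.mem_piFinset]
      intro j
      rw [Finset.mem_filter]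
      refine ⟨Finset.mem_univ _, ?_⟩
      by_contra hj
      apply ha.2.2
      unfold a1R
      rw [Finset.prod_eq_zero (Finset.mem_univ j), sub_zero]
      rw [ZMod.pow_card_sub_one_eq_one hj, sub_self]
    have h1 := Finset.card_le_card hsub
    rw [Fintype.card_piFinset, Finset.prod_const, Finset.card_univ, Fintype.card_fin] at h1
    have h2 := a1_half (fun i => P i x) hx
    calc _ ≤ (Finset.univ.filter (fun b : Fin k → ZMod q => ∑ i, b i * P i x = 0)).card ^ l *
          2 ^ l := Nat.mul_le_mul_right _ h1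
      _ = ((Finset.univ.filter (fun b : Fin k → ZMod q => ∑ i, b i * P i x = 0)).card * 2) ^ l :=
          (mul_pow _ _ _).symm
      _ ≤ (Fintype.card (Fin k → ZMod q)) ^ l := Nat.pow_le_pow_left h2 l
      _ = _ := by rw [Fintype.card_fun (α := Fin l), Fintype.card_fin]
  · have : Finset.univ.filter (fun a : Fin l → Fin k → ZMod q =>
        (∃ i, P i x ≠ 0) ∧ a1R q l P a x ≠ 1) = ∅ := by
      rw [Finset.filter_eq_empty_iff]
      intro a _ h
      exact hx h.1
    rw [this]
    simp

/-- Razborov's approximation of an OR of functions `P i` of degree at most `D`: there is a function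
of degree at most `(q - 1) * l * D` which is `0` where all `P i` vanish, and which is `1` on all but
a `2^(-l)` fraction of the cube where all `P i` have values in `{0, 1}`, not all `0`. -/
theorem or_approx [Fact q.Prime] {k D : ℕ} (l : ℕ) (P : Fin k → (Fin n → Bool) → ZMod q)
    (hP : ∀ i, P i ∈ Low q n D) :
    ∃ R : (Fin n → Bool) → ZMod q, R ∈ Low q n ((q - 1) * l * D) ∧
      (∀ x, (∀ i, P i x = 0) → R x = 0) ∧
      (Finset.univ.filter (fun x => (∃ i, P i x ≠ 0) ∧ R x ≠ 1)).card * 2 ^ l ≤ 2 ^ n := by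
  classical
  have hsum : ∑ a : Fin l → Fin k → ZMod q,
      (Finset.univ.filter (fun x => (∃ i, P i x ≠ 0) ∧ a1R q l P a x ≠ 1)).card * 2 ^ l ≤
      ∑ _a : Fin l → Fin k → ZMod q, 2 ^ n := by
    have h1 : ∑ a : Fin l → Fin k → ZMod q,
        (Finset.univ.filter (fun x => (∃ i, P i x ≠ 0) ∧ a1R q l P a x ≠ 1)).card =
        ∑ x : Fin n → Bool, (Finset.univ.filter (fun a : Fin l → Fin k → ZMod q =>
          (∃ i, P i x ≠ 0) ∧ a1R q l P a x ≠ 1)).card := by
      simp only [Finset.card_filter]
      exact Finset.sum_comm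
    rw [← Finset.sum_mul, h1, Finset.sum_mul]
    refine (Finset.sum_le_sum fun x _ => a1_bad l P x).trans ?_
    simp only [Finset.sum_const, Finset.card_univ, smul_eq_mul]
    rw [mul_comm, Fintype.card_fun (α := Fin n), Fintype.card_fin, Fintype.card_bool]
  obtain ⟨a, _, ha⟩ := Finset.exists_le_of_sum_le Finset.univ_nonempty hsum
  refine ⟨a1R q l P a, a1R_mem l P hP a, ?_, ha⟩
  intro x hx
  have hq : q - 1 ≠ 0 := by
    have := (Fact.out : q.Prime).two_le
    omega
  unfold a1R
  simp only [hx, mul_zero, Finset.sum_const_zero, zero_pow hq, sub_zero, Finset.prod_const_one,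
    sub_self]

end Pool.Agent.Helper70.AC
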