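import Mathlib
import Pool.Agent.Helper70.AC.A1

/-!
Module A2: approximation of formulas of small depth by functions of low degree.
-/

namespace Pool.Agent.Helper70.AC

variable {q n : ℕ}

theorem a2_sub_one {D : ℕ} {P : (Fin n → Bool) → ZMod q} (hP : P ∈ Low q n D) :
    (fun x => 1 - P x) ∈ Low q n D :=
  (Low q n D).sub_mem (Low.const_mem D 1) hP

theorem a2_sum_mem {ι : Type*} (s : Finset ι) {D : ℕ} {f : ι → (Fin n → Bool) → ZMod q}
    (hf : ∀ i ∈ s, f i ∈ Low q n D) : (fun x => ∑ i ∈ s, f i x) ∈ Low q n D := by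
  have h : (fun x => ∑ i ∈ s, f i x) = ∑ i ∈ s, f i := by
    funext x
    rw [Finset.sum_apply]
  rw [h]
  exact (Low q n D).sum_mem hf

/-- errors of a family of approximations -/
theorem a2_union [Fact q.Prime] {k l : ℕ} (s : Fin k → ℕ) (f : Fin k → (Fin n → Bool) → Bool)
    (P : Fin k → (Fin n → Bool) → ZMod q)
    (h : ∀ i, (Finset.univ.filter (fun x => P i x ≠ bz q (f i x))).card * 2 ^ l ≤ s i * 2 ^ n)
    (Bad : Finset (Fin n → Bool)) (hBad : Bad.card * 2 ^ l ≤ 2 ^ n) (A : Finset (Fin n → Bool))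
    (hA : ∀ x ∈ A, x ∉ Bad → ∃ i, P i x ≠ bz q (f i x)) :
    A.card * 2 ^ l ≤ ((∑ i, s i) + 1) * 2 ^ n := by
  classical
  have h1 : A ⊆ Bad ∪ Finset.univ.biUnion
      (fun i => Finset.univ.filter (fun x => P i x ≠ bz q (f i x))) := by
    intro x hx
    by_cases hb : x ∈ Bad
    · exact Finset.mem_union_left _ hb
    · obtain ⟨i, hi⟩ := hA x hx hb
      refine Finset.mem_union_right _ (Finset.mem_biUnion.2 ⟨i, Finset.mem_univ _, ?_⟩)
      simpa using hi
  have h2 : A.card ≤ Bad.card + ∑ i, (Finset.univ.filter (fun x => P i x ≠ bz q (f i x))).card :=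
    (Finset.card_le_card h1).trans ((Finset.card_union_le _ _).trans
      (Nat.add_le_add_left Finset.card_biUnion_le _))
  calc A.card * 2 ^ l
      ≤ (Bad.card + ∑ i, (Finset.univ.filter (fun x => P i x ≠ bz q (f i x))).card) * 2 ^ l :=
        Nat.mul_le_mul_right _ h2
    _ = Bad.card * 2 ^ l +
        ∑ i, (Finset.univ.filter (fun x => P i x ≠ bz q (f i x))).card * 2 ^ l := by
        rw [add_mul, Finset.sum_mul]
    _ ≤ 2 ^ n + ∑ i, s i * 2 ^ n := Nat.add_le_add hBad (Finset.sum_le_sum fun i _ => h i)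
    _ = ((∑ i, s i) + 1) * 2 ^ n := by rw [add_mul, Finset.sum_mul]; ring

theorem a2_bz_sub [Fact q.Prime] (b : Bool) : 1 - bz q b = bz q (!b) := by
  cases b <;> simp [bz]

theorem a2_bz_ne [Fact q.Prime] (b : Bool) : bz q b ≠ 0 ↔ b = true := by
  cases b <;> simp [bz]

theorem a2_disj [Fact q.Prime] {k d l : ℕ} (s : Fin k → ℕ)
    (f : Fin k → (Fin n → Bool) → Bool)
    (ih : ∀ i, ∃ P : (Fin n → Bool) → ZMod q, P ∈ Low q n (((q - 1) * l) ^ d) ∧
      (Finset.univ.filter (fun x => P x ≠ bz q (f i x))).card * 2 ^ l ≤ s i * 2 ^ n) :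
    ∃ P : (Fin n → Bool) → ZMod q, P ∈ Low q n (((q - 1) * l) ^ (d + 1)) ∧
      (Finset.univ.filter (fun x => P x ≠ bz q (decide (∃ i, f i x = true)))).card * 2 ^ l ≤
        ((∑ i, s i) + 1) * 2 ^ n := by
  classical
  choose P hP hE using ih
  obtain ⟨R, hR, hR0, hR1⟩ := or_approx l P hP
  refine ⟨R, ?_, ?_⟩
  · rw [pow_succ, mul_comm (((q - 1) * l) ^ d)]
    exact hR
  · refine a2_union s f P hE _ hR1 _ ?_
    intro x hx hbad
    by_contra hcon
    push Not at hcon
    have hx' : R x ≠ bz q (decide (∃ i, f i x = true)) := by simpa using hx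
    by_cases hex : ∃ i, f i x = true
    · have h1 : ∃ i, P i x ≠ 0 := by
        obtain ⟨i, hi⟩ := hex
        exact ⟨i, by rw [hcon i, hi]; simp [bz]⟩
      have h2 : R x ≠ 1 := by
        intro h
        apply hx'
        rw [h, decide_eq_true hex]
        simp [bz]
      exact hbad (by simp only [Finset.mem_filter, Finset.mem_univ, true_and]; exact ⟨h1, h2⟩)
    · have h1 : ∀ i, P i x = 0 := by
        intro i
        rw [hcon i]
        have : f i x = false := by
          by_contra h
          exact hex ⟨i, by simpa using h⟩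
        rw [this]
        simp [bz]
      apply hx'
      rw [hR0 x h1, decide_eq_false hex]
      simp [bz]

theorem a2_neg [Fact q.Prime] {D s l : ℕ} {f : (Fin n → Bool) → Bool}
    (ih : ∃ P : (Fin n → Bool) → ZMod q, P ∈ Low q n D ∧
      (Finset.univ.filter (fun x => P x ≠ bz q (f x))).card * 2 ^ l ≤ s * 2 ^ n) :
    ∃ P : (Fin n → Bool) → ZMod q, P ∈ Low q n D ∧
      (Finset.univ.filter (fun x => P x ≠ bz q (!(f x)))).card * 2 ^ l ≤ s * 2 ^ n := by
  obtain ⟨P, hP, hE⟩ := ih
  refine ⟨fun x => 1 - P x, a2_sub_one hP, ?_⟩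
  refine le_trans (Nat.mul_le_mul_right _ (Finset.card_le_card ?_)) hE
  intro x hx
  simp only [Finset.mem_filter, Finset.mem_univ, true_and] at hx ⊢
  intro h
  apply hx
  rw [h, a2_bz_sub]

theorem approx [Fact q.Prime] {d s : ℕ} {f : (Fin n → Bool) → Bool} (h : Ckt q n d s f)
    {l : ℕ} (hl : 1 ≤ l) :
    ∃ P : (Fin n → Bool) → ZMod q, P ∈ Low q n (((q - 1) * l) ^ d) ∧
      (Finset.univ.filter (fun x => P x ≠ bz q (f x))).card * 2 ^ l ≤ s * 2 ^ n := by
  classical
  have hq2 : 2 ≤ q := (Fact.out : q.Prime).two_le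
  have h1 : 1 ≤ (q - 1) * l := Nat.one_le_iff_ne_zero.2 (Nat.mul_ne_zero (by omega) (by omega))
  induction h with
  | const b =>
    refine ⟨fun _ => bz q b, Low.const_mem _ _, ?_⟩
    simp
  | input i =>
    refine ⟨fun x => bz q (x i), Low.input_mem (by simp) i, ?_⟩
    simp
  | neg _ ih => exact a2_neg ih
  | conj s f _ ih =>
    have h2 := a2_disj s (fun i x => !(f i x)) (fun i => a2_neg (ih i))
    have h3 := a2_neg h2
    obtain ⟨P, hP, hE⟩ := h3
    refine ⟨P, hP, ?_⟩
    convert hE using 7 with x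
    by_cases hall : ∀ i, f i x = true
    · have : ¬ ∃ i, (!(f i x)) = true := by
        rintro ⟨i, hi⟩
        rw [hall i] at hi
        simp at hi
      show decide (∀ i, f i x = true) = !decide (∃ i, (!f i x) = true)
      rw [decide_eq_true hall, decide_eq_false this]
      rfl
    · have : ∃ i, (!(f i x)) = true := by
        push Not at hall
        obtain ⟨i, hi⟩ := hall
        exact ⟨i, by simpa using hi⟩
      show decide (∀ i, f i x = true) = !decide (∃ i, (!f i x) = true)
      rw [decide_eq_false hall, decide_eq_true this]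
      rfl
  | disj s f _ ih => exact a2_disj s f ih
  | @modq d k s f _ ih =>
    choose P hP hE using ih
    refine ⟨fun x => 1 - (∑ i, P i x) ^ (q - 1), ?_, ?_⟩
    · refine a2_sub_one (Low.mono ?_ (Low.pow_mem (a2_sum_mem Finset.univ fun i _ => hP i) (q - 1)))
      rw [pow_succ, mul_comm]
      exact Nat.mul_le_mul_left _ (Nat.le_mul_of_pos_right _ (by omega))
    · refine a2_union s f P hE ∅ (by simp) _ ?_
      intro x hx _
      by_contra hcon
      push Not at hcon
      have hx' : 1 - (∑ i, P i x) ^ (q - 1) ≠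
        bz q (decide (q ∣ (Finset.univ.filter (fun i => f i x = true)).card)) := by simpa using hx
      have hsum : ∑ i, P i x = ((Finset.univ.filter (fun i => f i x = true)).card : ZMod q) := by
        rw [Finset.card_filter]
        push_cast
        apply Finset.sum_congr rfl
        intro i _
        rw [hcon i]
        rfl
      apply hx'
      rw [hsum]
      by_cases hd : q ∣ (Finset.univ.filter (fun i => f i x = true)).card
      · rw [decide_eq_true hd, (ZMod.natCast_eq_zero_iff _ _).2 hd,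
          zero_pow (by omega)]
        simp [bz]
      · rw [decide_eq_false hd]
        have hne : ((Finset.univ.filter (fun i => f i x = true)).card : ZMod q) ≠ 0 := by
          rw [Ne, ZMod.natCast_eq_zero_iff]
          exact hd
        rw [ZMod.pow_card_sub_one_eq_one hne]
        simp [bz]
  | weaken d' s' hd hs _ ih =>
    obtain ⟨P, hP, hE⟩ := ih
    exact ⟨P, Low.mono (Nat.pow_le_pow_right h1 hd) hP,
      hE.trans (Nat.mul_le_mul_right _ hs)⟩

end Pool.Agent.Helper70.AC
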