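import Mathlib
import Pool.Agent.Helper70.AC.A0

/-!
Module A3: Smolensky's dimension argument.
-/

namespace Pool.Agent.Helper70.AC

variable {q n : ℕ}

theorem a3_sgn (b : Bool) : (1 - 2 * bz q b : ZMod q) = if b = true then -1 else 1 := by
  cases b
  · simp [bz]
  · simp only [bz, if_true]
    ring

theorem a3_sgn_sq (b : Bool) : (1 - 2 * bz q b : ZMod q) * (1 - 2 * bz q b) = 1 := by
  rw [a3_sgn]
  cases b <;> simp

theorem a3_prod_all (x : Fin n → Bool) :
    ∏ i, (1 - 2 * bz q (x i) : ZMod q) = 1 - 2 * bz q (par x) := by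
  simp only [a3_sgn]
  rw [Finset.prod_ite, Finset.prod_const, Finset.prod_const_one, mul_one]
  unfold par
  by_cases h : Odd (Finset.univ.filter (fun i => x i = true)).card
  · rw [decide_eq_true h, h.neg_one_pow, if_pos rfl]
  · rw [decide_eq_false h, (Nat.not_odd_iff_even.mp h).neg_one_pow]
    simp

theorem a3_indicator [Fact q.Prime] (hq : q ≠ 2) (z x : Fin n → Bool) :
    ((2 : ZMod q) ^ n)⁻¹ * ∏ i, (1 + (1 - 2 * bz q (z i)) * (1 - 2 * bz q (x i))) =
      if x = z then 1 else 0 := by
  have h2 : (2 : ZMod q) ≠ 0 := by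
    intro h
    have h1 : ((2 : ℕ) : ZMod q) = 0 := by exact_mod_cast h
    rw [ZMod.natCast_eq_zero_iff] at h1
    exact hq ((Nat.prime_dvd_prime_iff_eq (Fact.out : q.Prime) Nat.prime_two).mp h1)
  by_cases h : x = z
  · subst h
    rw [if_pos rfl]
    have : ∀ i, (1 + (1 - 2 * bz q (x i)) * (1 - 2 * bz q (x i)) : ZMod q) = 2 := by
      intro i
      rw [a3_sgn_sq]
      norm_num
    simp only [this, Finset.prod_const, Finset.card_univ, Fintype.card_fin]
    exact inv_mul_cancel₀ (pow_ne_zero _ h2)
  · rw [if_neg h]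
    obtain ⟨i, hi⟩ := Function.ne_iff.mp h
    rw [Finset.prod_eq_zero (Finset.mem_univ i), mul_zero]
    rw [a3_sgn, a3_sgn]
    cases hx : x i <;> cases hz : z i <;> simp_all

/-- A function of degree at most `D` agrees with the parity in at most as many points as there are
monomials of degree at most `n / 2 + D`. -/
theorem agree_par_le [Fact q.Prime] (hq : q ≠ 2) {D : ℕ} {P : (Fin n → Bool) → ZMod q}
    (hP : P ∈ Low q n D) :
    (Finset.univ.filter (fun x => P x = bz q (par x))).card ≤
      ∑ i ∈ Finset.range (n / 2 + D + 1), n.choose i := by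
  classical
  set G : Finset (Fin n → Bool) := Finset.univ.filter (fun x => P x = bz q (par x)) with hG
  let R : ((Fin n → Bool) → ZMod q) →ₗ[ZMod q] (G → ZMod q) :=
    LinearMap.funLeft (ZMod q) (ZMod q) (fun x : G => (x : Fin n → Bool))
  have hR : ∀ (f : (Fin n → Bool) → ZMod q) (x : G), R f x = f x := fun f x => rfl
  -- the products of signs
  have hA : ∀ A : Finset (Fin n), R (fun x => ∏ i ∈ A, (1 - 2 * bz q (x i))) ∈
      (Low q n (n / 2 + D)).map R := by
    intro A
    by_cases hc : A.card ≤ n / 2
    · exact Submodule.mem_map_of_mem (Low.mono (by omega) (Low.sign_mem A))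
    · have hcard : (Finset.univ \ A).card = n - A.card := by
        rw [Finset.card_sdiff_of_subset (Finset.subset_univ A), Finset.card_univ, Fintype.card_fin]
      have hQ : (fun x => 1 - 2 * P x) ∈ Low q n D := by
        have h1 : (fun _ => (1 : ZMod q)) ∈ Low q n D := Low.const_mem D 1
        exact Submodule.sub_mem _ h1 (Submodule.smul_mem _ (2 : ZMod q) hP)
      have hmem : (fun x => (1 - 2 * P x) * ∏ i ∈ Finset.univ \ A, (1 - 2 * bz q (x i))) ∈
          Low q n (n / 2 + D) :=
        Low.mono (by omega) (Low.mul_mem hQ (Low.sign_mem (Finset.univ \ A)))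
      refine ⟨_, hmem, ?_⟩
      funext x
      rw [hR, hR]
      have hx : P x = bz q (par x.1) := (Finset.mem_filter.mp x.2).2
      rw [hx, ← a3_prod_all, ← Finset.prod_sdiff (Finset.subset_univ A),
        mul_comm (∏ i ∈ Finset.univ \ A, (1 - 2 * bz q (x.1 i))), mul_assoc,
        ← Finset.prod_mul_distrib]
      simp only [a3_sgn_sq, Finset.prod_const_one, mul_one]
  -- the indicators
  have hδ : ∀ z : Fin n → Bool, R (fun x => if x = z then 1 else 0) ∈
      (Low q n (n / 2 + D)).map R := by
    intro z
    have h1 : (fun x : Fin n → Bool => (if x = z then 1 else 0 : ZMod q)) =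
        ((2 : ZMod q) ^ n)⁻¹ • ∑ A ∈ (Finset.univ : Finset (Fin n)).powerset,
          (∏ i ∈ A, (1 - 2 * bz q (z i))) • (fun x : Fin n → Bool =>
            ∏ i ∈ A, (1 - 2 * bz q (x i))) := by
      funext x
      rw [← a3_indicator hq z x, Finset.prod_one_add]
      simp only [Pi.smul_apply, Finset.sum_apply, smul_eq_mul, Finset.prod_mul_distrib]
    rw [h1, map_smul, map_sum]
    refine Submodule.smul_mem _ _ (Submodule.sum_mem _ fun A _ => ?_)
    rw [map_smul]
    exact Submodule.smul_mem _ _ (hA A)
  have htop : (Low q n (n / 2 + D)).map R = ⊤ := by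
    rw [Submodule.eq_top_iff']
    intro g
    rw [pi_eq_sum_univ g]
    refine Submodule.sum_mem _ fun z _ => Submodule.smul_mem _ _ ?_
    have : (fun j : G => (if z = j then 1 else 0 : ZMod q)) =
        R (fun x => if x = z then 1 else 0) := by
      funext j
      rw [hR]
      by_cases h : z = j
      · rw [if_pos h, if_pos (by rw [h])]
      · rw [if_neg h, if_neg (fun h' => h (Subtype.ext h'.symm))]
    rw [this]
    exact hδ z
  calc G.card = Module.finrank (ZMod q) (G → ZMod q) := by
        rw [Module.finrank_fintype_fun_eq_card, Fintype.card_coe]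
    _ = Module.finrank (ZMod q) ((Low q n (n / 2 + D)).map R) := by
        rw [htop, finrank_top]
    _ ≤ Module.finrank (ZMod q) (Low q n (n / 2 + D)) := Submodule.finrank_map_le _ _
    _ ≤ _ := Low.finrank_le _

end Pool.Agent.Helper70.AC
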