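import Mathlib

/-!
Module A4: sums of binomial coefficients.
-/

namespace Pool.Agent.Helper70.AC

theorem a4_central (h : ℕ) : (Nat.centralBinom h) ^ 2 * (2 * h + 1) ≤ 16 ^ h := by
  induction h with
  | zero => simp
  | succ h ih =>
    have h1 := Nat.succ_mul_centralBinom_succ h
    have h2 : (h + 1) ^ 2 * ((Nat.centralBinom (h + 1)) ^ 2 * (2 * (h + 1) + 1)) ≤
        (h + 1) ^ 2 * 16 ^ (h + 1) := by
      calc (h + 1) ^ 2 * ((Nat.centralBinom (h + 1)) ^ 2 * (2 * (h + 1) + 1))
          = ((h + 1) * Nat.centralBinom (h + 1)) ^ 2 * (2 * h + 3) := by ring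
        _ = (2 * (2 * h + 1) * Nat.centralBinom h) ^ 2 * (2 * h + 3) := by rw [h1]
        _ = ((Nat.centralBinom h) ^ 2 * (2 * h + 1)) * (4 * ((2 * h + 1) * (2 * h + 3))) := by ring
        _ ≤ 16 ^ h * (4 * (4 * (h + 1) ^ 2)) := by
            refine Nat.mul_le_mul ih ?_
            nlinarith
        _ = (h + 1) ^ 2 * 16 ^ (h + 1) := by ring
    exact Nat.le_of_mul_le_mul_left h2 (by positivity)

theorem choose_half_sq_le (n : ℕ) : (n.choose (n / 2)) ^ 2 * n ≤ 4 ^ n := by
  rcases Nat.even_or_odd' n with ⟨h, rfl | rfl⟩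
  · have h1 := a4_central h
    have h2 : 2 * h / 2 = h := by omega
    rw [h2, pow_mul]
    have h3 : (4 : ℕ) ^ 2 = 16 := by norm_num
    rw [h3]
    refine le_trans ?_ h1
    exact Nat.mul_le_mul_left _ (Nat.le_succ _)
  · have h1 := a4_central (h + 1)
    have h2 : (2 * h + 1) / 2 = h := by omega
    have h3 : Nat.centralBinom (h + 1) = 2 * (2 * h + 1).choose h := by
      have h4 : 2 * (h + 1) = (2 * h + 1) + 1 := by ring
      rw [Nat.centralBinom, h4, Nat.choose_succ_succ, Nat.choose_symm_half]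
      ring
    rw [h2]
    rw [h3] at h1
    have h5 : 4 * (((2 * h + 1).choose h) ^ 2 * (2 * h + 1)) ≤ 4 * 4 ^ (2 * h + 1) := by
      calc 4 * (((2 * h + 1).choose h) ^ 2 * (2 * h + 1))
          ≤ (2 * (2 * h + 1).choose h) ^ 2 * (2 * (h + 1) + 1) := by
            have : (2 * (2 * h + 1).choose h) ^ 2 = 4 * ((2 * h + 1).choose h) ^ 2 := by ring
            rw [this, mul_assoc]
            refine Nat.mul_le_mul_left _ (Nat.mul_le_mul_left _ (by omega))
        _ ≤ 16 ^ (h + 1) := h1
        _ = 4 * 4 ^ (2 * h + 1) := by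
            have : (16 : ℕ) = 4 ^ 2 := by norm_num
            rw [this, ← pow_mul]
            ring
    exact Nat.le_of_mul_le_mul_left h5 (by norm_num)

theorem a4_half (n : ℕ) : 2 * ∑ i ∈ Finset.range (n / 2), n.choose i ≤ 2 ^ n := by
  classical
  set A := Finset.range (n / 2) with hA
  set B := A.image (fun i => n - i) with hB
  have h1 : ∑ j ∈ B, n.choose j = ∑ i ∈ A, n.choose i := by
    rw [hB, Finset.sum_image]
    · refine Finset.sum_congr rfl fun i hi => ?_
      have := Finset.mem_range.1 hi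
      exact Nat.choose_symm (by omega)
    · intro i hi j hj hij
      have := Finset.mem_range.1 hi
      have := Finset.mem_range.1 hj
      simp only at hij
      omega
  have h2 : Disjoint A B := by
    rw [Finset.disjoint_left]
    intro i hi hi'
    obtain ⟨j, hj, hji⟩ := Finset.mem_image.1 hi'
    have := Finset.mem_range.1 hi
    have := Finset.mem_range.1 hj
    omega
  have h3 : A ∪ B ⊆ Finset.range (n + 1) := by
    intro i hi
    rw [Finset.mem_range]
    rcases Finset.mem_union.1 hi with h | h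
    · have := Finset.mem_range.1 h
      omega
    · obtain ⟨j, hj, hji⟩ := Finset.mem_image.1 h
      omega
  calc 2 * ∑ i ∈ A, n.choose i = ∑ i ∈ A, n.choose i + ∑ j ∈ B, n.choose j := by rw [h1]; ring
    _ = ∑ i ∈ A ∪ B, n.choose i := (Finset.sum_union h2).symm
    _ ≤ ∑ i ∈ Finset.range (n + 1), n.choose i := Finset.sum_le_sum_of_subset h3
    _ = 2 ^ n := Nat.sum_range_choose n

/-- `∑_{i ≤ n/2 + D} C(n, i) ≤ (3/4) 2^n` when `64 (D + 1)^2 ≤ n`. -/
theorem sum_choose_le {n D : ℕ} (h : 64 * (D + 1) ^ 2 ≤ n) :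
    4 * ∑ i ∈ Finset.range (n / 2 + D + 1), n.choose i ≤ 3 * 2 ^ n := by
  set M := n.choose (n / 2) with hM
  have h1 : ∑ i ∈ Finset.range (n / 2 + D + 1), n.choose i ≤
      ∑ i ∈ Finset.range (n / 2), n.choose i + (D + 1) * M := by
    rw [add_assoc, Finset.sum_range_add]
    refine Nat.add_le_add_left ?_ _
    calc ∑ x ∈ Finset.range (D + 1), n.choose (n / 2 + x)
        ≤ ∑ _x ∈ Finset.range (D + 1), M := Finset.sum_le_sum fun i _ => Nat.choose_le_middle _ _
      _ = (D + 1) * M := by rw [Finset.sum_const, Finset.card_range, smul_eq_mul]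
  have h2 := a4_half n
  have h3 : 8 * ((D + 1) * M) ≤ 2 ^ n := by
    have h4 := choose_half_sq_le n
    have h5 : (8 * ((D + 1) * M)) ^ 2 ≤ (2 ^ n) ^ 2 := by
      calc (8 * ((D + 1) * M)) ^ 2 = 64 * (D + 1) ^ 2 * M ^ 2 := by ring
        _ ≤ n * M ^ 2 := Nat.mul_le_mul_right _ h
        _ = M ^ 2 * n := by ring
        _ ≤ 4 ^ n := h4
        _ = (2 ^ n) ^ 2 := by
            rw [← pow_mul, mul_comm, pow_mul]
            norm_num
    exact (Nat.pow_le_pow_iff_left (by norm_num)).1 h5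
  omega

end Pool.Agent.Helper70.AC
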