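import Mathlib
import Pool.Agent.Helper70.AC.Defs
import Pool.Agent.Helper72.Defs
import Pool.Agent.Helper72.CodeInj

/-!
Module A6: the satisfiability problem encodes the parity function by projections.
-/

namespace Pool.Agent.Helper70.AC

open Pool.Agent.Helper72

/-! ### Lengths of codes -/

theorem a6_posNum_length (p : PosNum) : (Computability.encodePosNum p).length ≤ (p : ℕ) := by
  induction p with
  | one => simp [Computability.encodePosNum]
  | bit0 p ih =>
    have h1 : 0 < (p : ℕ) := p.cast_pos
    simp only [Computability.encodePosNum, List.length_cons, PosNum.cast_bit0]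
    omega
  | bit1 p ih =>
    have h1 : 0 < (p : ℕ) := p.cast_pos
    simp only [Computability.encodePosNum, List.length_cons, PosNum.cast_bit1]
    omega

theorem a6_encodeNat_length (k : ℕ) : (Computability.encodeNat k).length ≤ k := by
  unfold Computability.encodeNat
  have h : ∀ m : Num, (Computability.encodeNum m).length ≤ (m : ℕ) := by
    intro m
    cases m with
    | zero => simp [Computability.encodeNum]
    | pos p => exact a6_posNum_length p
  have h1 := h (k : Num)
  rwa [Num.to_of_nat] at h1

theorem a6_var_length (k : ℕ) : (BForm.var k).code.length ≤ 3 + 3 * k := by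
  have h := a6_encodeNat_length k
  simp only [BForm.code, List.length_append, List.length_cons, List.length_nil,
    List.length_flatMap]
  simp only [List.map_const', List.sum_replicate, smul_eq_mul]
  omega

/-! ### Bits -/

/-- an output bit of a projection -/
inductive A6Bit (n : ℕ)
  | const (b : Bool)
  | pos (i : Fin n)
  | neg (i : Fin n)

/-- the value of an output bit -/
def A6Bit.val {n : ℕ} (x : Fin n → Bool) : A6Bit n → Bool
  | const b => b
  | pos i => x i
  | neg i => !(x i)

/-- conjunction or disjunction -/
def a6op (b : Bool) (φ ψ : BForm) : BForm := if b then BForm.disj φ ψ else BForm.conj φ ψ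

theorem a6op_code (b : Bool) (φ ψ : BForm) :
    (a6op b φ ψ).code = [true, b, !b] ++ (φ.code ++ ψ.code) := by
  cases b <;> simp [a6op, BForm.code]

/-- `u ↔ v` if `x` is false and `u xor v` if `x` is true -/
def a6E (x : Bool) (u v : BForm) : BForm :=
  a6op (!x) (a6op x u v) (a6op x (BForm.neg u) (BForm.neg v))

theorem a6E_eval (x : Bool) (u v : BForm) (w : ℕ → Bool) :
    (a6E x u v).eval w = true ↔ u.eval w = xor (v.eval w) x := by
  cases x <;> cases hu : u.eval w <;> cases hv : v.eval w <;>
    simp [a6E, a6op, BForm.eval, hu, hv]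

/-- the bits of the code of a fixed formula -/
def a6c {n : ℕ} (φ : BForm) : List (A6Bit n) := φ.code.map A6Bit.const

theorem a6c_val {n : ℕ} (x : Fin n → Bool) (φ : BForm) :
    (a6c φ).map (A6Bit.val x) = φ.code := by
  unfold a6c
  rw [List.map_map]
  conv_rhs => rw [← List.map_id φ.code]
  rfl

/-- the bits of the code of `a6E (x i) u v` -/
def a6Eb {n : ℕ} (i : Fin n) (u v : BForm) : List (A6Bit n) :=
  [A6Bit.const true, A6Bit.neg i, A6Bit.pos i] ++
    (([A6Bit.const true, A6Bit.pos i, A6Bit.neg i] ++ (a6c u ++ a6c v)) ++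
      ([A6Bit.const true, A6Bit.pos i, A6Bit.neg i] ++
        (a6c (BForm.neg u) ++ a6c (BForm.neg v))))

theorem a6Eb_val {n : ℕ} (x : Fin n → Bool) (i : Fin n) (u v : BForm) :
    (a6Eb i u v).map (A6Bit.val x) = (a6E (x i) u v).code := by
  unfold a6Eb a6E
  rw [a6op_code, a6op_code, a6op_code]
  simp only [List.map_append, a6c_val, List.map_cons, List.map_nil, A6Bit.val, Bool.not_not]

/-- the formula -/
def a6Phi {n : ℕ} (x : Fin n → Bool) : List (Fin n) → BForm
  | [] => BForm.conj (BForm.neg (BForm.var 0)) (BForm.var n)
  | i :: l => BForm.conj (a6E (x i) (BForm.var (i + 1)) (BForm.var i)) (a6Phi x l)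

/-- the bits of its code -/
def a6Phib {n : ℕ} : List (Fin n) → List (A6Bit n)
  | [] => a6c (BForm.conj (BForm.neg (BForm.var 0)) (BForm.var n))
  | i :: l => [A6Bit.const true, A6Bit.const false, A6Bit.const true] ++
      (a6Eb i (BForm.var (i + 1)) (BForm.var i) ++ a6Phib l)

theorem a6Phib_val {n : ℕ} (x : Fin n → Bool) (l : List (Fin n)) :
    (a6Phib l).map (A6Bit.val x) = (a6Phi x l).code := by
  induction l with
  | nil => exact a6c_val x _
  | cons i l ih =>
    simp only [a6Phib, a6Phi, BForm.code, List.map_append, ih, a6Eb_val, List.map_cons,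
      List.map_nil, A6Bit.val]

theorem a6Phi_eval {n : ℕ} (x : Fin n → Bool) (l : List (Fin n)) (w : ℕ → Bool) :
    (a6Phi x l).eval w = true ↔
      (∀ i ∈ l, w (i + 1) = xor (w i) (x i)) ∧ w 0 = false ∧ w n = true := by
  induction l with
  | nil => simp [a6Phi, BForm.eval]
  | cons i l ih =>
    have h : (a6Phi x (i :: l)).eval w =
        ((a6E (x i) (BForm.var (i + 1)) (BForm.var i)).eval w && (a6Phi x l).eval w) := rfl
    rw [h, Bool.and_eq_true, ih, a6E_eval]
    simp only [BForm.eval, List.mem_cons, forall_eq_or_imp]
    tauto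

/-! ### Lengths -/

theorem a6Phib_length_ge {n : ℕ} (l : List (Fin n)) : l.length ≤ (a6Phib l).length := by
  induction l with
  | nil => simp
  | cons i l ih =>
    simp only [a6Phib, List.length_append, List.length_cons, List.length_nil]
    omega

theorem a6Phib_length_le {n : ℕ} (l : List (Fin n)) :
    (a6Phib l).length ≤ l.length * (60 + 12 * n) + (12 + 3 * n) := by
  induction l with
  | nil =>
    have h1 := a6_var_length 0
    have h2 := a6_var_length n
    simp only [a6Phib, a6c, List.length_map, BForm.code, List.length_append, List.length_cons,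
      List.length_nil] at h1 h2 ⊢
    omega
  | cons i l ih =>
    have h1 := a6_var_length i
    have h2 := a6_var_length (i + 1)
    have hi : (i : ℕ) < n := i.2
    have h3 : (i :: l).length * (60 + 12 * n) = l.length * (60 + 12 * n) + (60 + 12 * n) := by
      rw [List.length_cons]
      ring
    have h4 : ∀ φ : BForm, (BForm.neg φ).code.length = 3 + φ.code.length := by
      intro φ
      simp only [BForm.code, List.length_append, List.length_cons, List.length_nil]
    rw [h3]
    simp only [a6Phib, a6Eb, a6c, List.length_map, List.length_append, List.length_cons,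
      List.length_nil, h4]
    omega

/-! ### Parities -/

/-- parity of the first `k` bits -/
def a6p {n : ℕ} (x : Fin n → Bool) (k : ℕ) : Bool :=
  decide (Odd (Finset.univ.filter (fun i : Fin n => (i : ℕ) < k ∧ x i = true)).card)

theorem a6p_zero {n : ℕ} (x : Fin n → Bool) : a6p x 0 = false := by
  simp [a6p]

theorem a6p_all {n : ℕ} (x : Fin n → Bool) : a6p x n = par x := by
  unfold a6p par
  congr 3
  ext i
  simp

theorem a6p_succ {n : ℕ} (x : Fin n → Bool) (i : Fin n) :
    a6p x (i + 1) = xor (a6p x i) (x i) := by
  unfold a6p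
  cases hx : x i with
  | false =>
    have : (Finset.univ.filter (fun j : Fin n => (j : ℕ) < i + 1 ∧ x j = true)) =
        Finset.univ.filter (fun j : Fin n => (j : ℕ) < i ∧ x j = true) := by
      ext j
      simp only [Finset.mem_filter, Finset.mem_univ, true_and]
      constructor
      · rintro ⟨h1, h2⟩
        refine ⟨?_, h2⟩
        rcases Nat.lt_succ_iff_lt_or_eq.mp h1 with h | h
        · exact h
        · rw [Fin.ext h, hx] at h2
          simp at h2
      · rintro ⟨h1, h2⟩
        exact ⟨by omega, h2⟩
    rw [this]
    simp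
  | true =>
    have : (Finset.univ.filter (fun j : Fin n => (j : ℕ) < i + 1 ∧ x j = true)) =
        insert i (Finset.univ.filter (fun j : Fin n => (j : ℕ) < i ∧ x j = true)) := by
      ext j
      simp only [Finset.mem_insert, Finset.mem_filter, Finset.mem_univ, true_and]
      constructor
      · rintro ⟨h1, h2⟩
        rcases Nat.lt_succ_iff_lt_or_eq.mp h1 with h | h
        · exact Or.inr ⟨h, h2⟩
        · exact Or.inl (Fin.ext h)
      · rintro (rfl | ⟨h1, h2⟩)
        · exact ⟨by omega, hx⟩
        · exact ⟨by omega, h2⟩
    rw [this, Finset.card_insert_of_notMem (by simp)]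
    rw [Bool.xor_true]
    by_cases h : Odd (Finset.univ.filter (fun j : Fin n => (j : ℕ) < i ∧ x j = true)).card
    · rw [decide_eq_true h, decide_eq_false (by rw [Nat.odd_add_one]; exact not_not.mpr h)]
      rfl
    · rw [decide_eq_false h, decide_eq_true (by rw [Nat.odd_add_one]; exact h)]
      rfl

/-- For every `n` there is a projection from `n` bits to `m` bits, `n ≤ m ≤ (n + 2) ^ 4 * 100`,
whose values are codes of formulas, satisfiable exactly when the parity of the `n` bits is odd. -/
theorem sat_encodes_par (n : ℕ) : ∃ (m : ℕ) (π : (Fin n → Bool) → Fin m → Bool),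
    n ≤ m ∧ m ≤ 100 * (n + 2) ^ 4 ∧ IsProj π ∧ ∀ x, List.ofFn (π x) ∈ SAT ↔ par x = true := by
  refine ⟨(a6Phib (List.finRange n)).length,
    fun x j => A6Bit.val x ((a6Phib (List.finRange n)).get j), ?_, ?_, ?_, ?_⟩
  · have h := a6Phib_length_ge (List.finRange n)
    rwa [List.length_finRange] at h
  · have h := a6Phib_length_le (List.finRange n)
    rw [List.length_finRange] at h
    refine h.trans ?_
    have h2 : (n + 2) ^ 2 ≤ (n + 2) ^ 4 := Nat.pow_le_pow_right (by omega) (by norm_num)
    nlinarith
  · intro j
    show (∃ b, ∀ x, A6Bit.val x ((a6Phib (List.finRange n)).get j) = b) ∨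
      (∃ i, ∀ x, A6Bit.val x ((a6Phib (List.finRange n)).get j) = x i) ∨
      ∃ i, ∀ x, A6Bit.val x ((a6Phib (List.finRange n)).get j) = !(x i)
    cases (a6Phib (List.finRange n)).get j with
    | const b => exact Or.inl ⟨b, fun x => rfl⟩
    | pos i => exact Or.inr (Or.inl ⟨i, fun x => rfl⟩)
    | neg i => exact Or.inr (Or.inr ⟨i, fun x => rfl⟩)
  · intro x
    have hcode : List.ofFn (fun j => A6Bit.val x ((a6Phib (List.finRange n)).get j)) =
        (a6Phi x (List.finRange n)).code := by
      rw [← a6Phib_val]
      have : (fun j => A6Bit.val x ((a6Phib (List.finRange n)).get j)) =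
          A6Bit.val x ∘ (a6Phib (List.finRange n)).get := rfl
      rw [this, ← List.map_ofFn, List.ofFn_get]
    rw [hcode]
    constructor
    · rintro ⟨φ, hφ, w, hw⟩
      rw [code_injective hφ] at hw
      rw [a6Phi_eval] at hw
      obtain ⟨h1, h2, h3⟩ := hw
      have h4 : ∀ k, k ≤ n → w k = a6p x k := by
        intro k
        induction k with
        | zero => intro _; rw [h2, a6p_zero]
        | succ k ih =>
          intro hk
          have h5 := h1 ⟨k, hk⟩ (List.mem_finRange _)
          have h6 := a6p_succ x ⟨k, hk⟩
          simp only at h5 h6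
          rw [h5, h6, ih (by omega)]
      rw [← a6p_all, ← h4 n le_rfl, h3]
    · intro hx
      refine ⟨_, rfl, a6p x, ?_⟩
      rw [a6Phi_eval]
      exact ⟨fun i _ => a6p_succ x i, a6p_zero x, by rw [a6p_all, hx]⟩

end Pool.Agent.Helper70.AC
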