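import Mathlib
import Pool.Agent.Helper70.AC.A3

/-!
Module B3: Smolensky's dimension argument for the characteristic 2 and the counting modulo 3.
-/

namespace Pool.Agent.Helper70.AC

/-- the number of true bits is `r` modulo 3 -/
def m3 (r : ℕ) {n : ℕ} (x : Fin n → Bool) : Bool :=
  decide ((Finset.univ.filter (fun i => x i = true)).card % 3 = r)

namespace B3

variable {F : Type} [Field F] {n : ℕ}

/-- a Boolean as an element of `F` -/
def be (F : Type) [Field F] (b : Bool) : F := if b then 1 else 0

/-- the monomial of the set `A` -/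
def mf (F : Type) [Field F] {n : ℕ} (A : Finset (Fin n)) (x : Fin n → Bool) : F :=
  ∏ i ∈ A, be F (x i)

/-- functions on the cube of degree at most `D` -/
def LF (F : Type) [Field F] (n D : ℕ) : Submodule F ((Fin n → Bool) → F) :=
  Submodule.span F (mf F '' {A : Finset (Fin n) | A.card ≤ D})

theorem mf_eq (A : Finset (Fin n)) (x : Fin n → Bool) :
    mf F A x = if ∀ i ∈ A, x i = true then 1 else 0 := by
  unfold mf be
  rw [Finset.prod_ite_zero]
  simp

theorem mf_mul (A B : Finset (Fin n)) : mf F A * mf F B = mf F (A ∪ B) := by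
  funext x
  rw [Pi.mul_apply, mf_eq, mf_eq, mf_eq]
  by_cases h1 : ∀ i ∈ A, x i = true
  · by_cases h2 : ∀ i ∈ B, x i = true
    · rw [if_pos h1, if_pos h2, if_pos, mul_one]
      intro i hi
      rcases Finset.mem_union.1 hi with h | h
      · exact h1 i h
      · exact h2 i h
    · have h3 : ¬ ∀ i ∈ A ∪ B, x i = true :=
        fun h => h2 fun i hi => h i (Finset.mem_union_right _ hi)
      rw [if_neg h2, if_neg h3, mul_zero]
  · have h3 : ¬ ∀ i ∈ A ∪ B, x i = true :=
      fun h => h1 fun i hi => h i (Finset.mem_union_left _ hi)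
    rw [if_neg h1, if_neg h3, zero_mul]

theorem LF_mono {D D' : ℕ} (h : D ≤ D') : LF F n D ≤ LF F n D' :=
  Submodule.span_mono (Set.image_mono fun _ hA => le_trans hA h)

theorem mf_mem {D : ℕ} {A : Finset (Fin n)} (h : A.card ≤ D) : mf F A ∈ LF F n D :=
  Submodule.subset_span ⟨A, h, rfl⟩

theorem LF_const (D : ℕ) (c : F) : (fun _ => c) ∈ LF F n D := by
  have h1 : (fun _ : Fin n → Bool => c) = c • mf F (∅ : Finset (Fin n)) := by
    funext x
    simp [mf]
  rw [h1]
  exact Submodule.smul_mem _ _ (mf_mem (by simp))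

theorem LF_input {D : ℕ} (h : 1 ≤ D) (i : Fin n) : (fun x => be F (x i)) ∈ LF F n D := by
  have h1 : (fun x : Fin n → Bool => be F (x i)) = mf F {i} := by
    funext x
    simp [mf]
  rw [h1]
  exact mf_mem (by simpa using h)

theorem LF_mul {D D' : ℕ} {f g : (Fin n → Bool) → F} (hf : f ∈ LF F n D)
    (hg : g ∈ LF F n D') : (fun x => f x * g x) ∈ LF F n (D + D') := by
  have h1 : f * g ∈ LF F n D * LF F n D' := Submodule.mul_mem_mul hf hg
  have h2 : LF F n D * LF F n D' ≤ LF F n (D + D') := by
    rw [LF, LF, Submodule.span_mul_span]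
    refine Submodule.span_le.2 ?_
    rintro _ ⟨_, ⟨A, hA, rfl⟩, _, ⟨B, hB, rfl⟩, rfl⟩
    show mf F A * mf F B ∈ LF F n (D + D')
    rw [mf_mul]
    exact mf_mem ((Finset.card_union_le A B).trans (Nat.add_le_add hA hB))
  exact h2 h1

theorem LF_prod {ι : Type*} (s : Finset ι) {D : ℕ} {f : ι → (Fin n → Bool) → F}
    (hf : ∀ i ∈ s, f i ∈ LF F n D) : (fun x => ∏ i ∈ s, f i x) ∈ LF F n (s.card * D) := by
  classical
  induction s using Finset.induction_on with
  | empty => simpa using LF_const (F := F) (n := n) (0 * D) 1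
  | insert a s ha ih =>
    have h1 := LF_mul (hf a (Finset.mem_insert_self a s))
      (ih fun i hi => hf i (Finset.mem_insert_of_mem hi))
    rw [Finset.card_insert_of_notMem ha, Nat.succ_mul, Nat.add_comm]
    simpa [Finset.prod_insert ha] using h1

theorem LF_finrank (D : ℕ) :
    Module.finrank F (LF F n D) ≤ ∑ i ∈ Finset.range (D + 1), n.choose i := by
  classical
  set s : Finset (Finset (Fin n)) := (Finset.range (D + 1)).biUnion
    (fun i => Finset.powersetCard i Finset.univ) with hs
  have h1 : LF F n D = Submodule.span F (((s.image (mf F) :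
      Finset ((Fin n → Bool) → F)) : Set ((Fin n → Bool) → F))) := by
    unfold LF
    congr 1
    ext f
    simp only [Set.mem_image, Set.mem_ofPred_eq, Finset.coe_image, Finset.mem_coe, hs,
      Finset.mem_biUnion, Finset.mem_range, Finset.mem_powersetCard, Finset.subset_univ, true_and]
    constructor
    · rintro ⟨A, hA, rfl⟩
      exact ⟨A, ⟨A.card, by omega, rfl⟩, rfl⟩
    · rintro ⟨A, ⟨i, hi, rfl⟩, rfl⟩
      exact ⟨A, by omega, rfl⟩
  rw [h1]
  have h2 := finrank_span_finset_le_card (R := F) (s.image (mf F))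
  refine le_trans h2 (Finset.card_image_le.trans (Finset.card_biUnion_le.trans ?_))
  refine Finset.sum_le_sum fun i _ => ?_
  rw [Finset.card_powersetCard, Finset.card_univ, Fintype.card_fin]

/-- functions with values in the prime field -/
theorem LF_alg [Algebra (ZMod 2) F] {D : ℕ} {P : (Fin n → Bool) → ZMod 2}
    (hP : P ∈ Low 2 n D) : (fun x => algebraMap (ZMod 2) F (P x)) ∈ LF F n D := by
  unfold Low at hP
  induction hP using Submodule.span_induction with
  | mem f hf =>
    obtain ⟨A, hA, rfl⟩ := hf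
    have : (fun x => algebraMap (ZMod 2) F (mon 2 A x)) = mf F A := by
      funext x
      unfold mon mf bz be
      rw [map_prod]
      refine Finset.prod_congr rfl fun i _ => ?_
      split_ifs <;> simp
    rw [this]
    exact mf_mem hA
  | zero =>
    have : (fun x => algebraMap (ZMod 2) F ((0 : (Fin n → Bool) → ZMod 2) x)) = 0 := by
      funext x
      simp
    rw [this]
    exact Submodule.zero_mem _
  | add f g _ _ hf hg =>
    have : (fun x => algebraMap (ZMod 2) F ((f + g) x)) =
        (fun x => algebraMap (ZMod 2) F (f x)) + fun x => algebraMap (ZMod 2) F (g x) := by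
      funext x
      simp
    rw [this]
    exact Submodule.add_mem _ hf hg
  | smul a f _ hf =>
    have : (fun x => algebraMap (ZMod 2) F ((a • f) x)) =
        (algebraMap (ZMod 2) F a) • fun x => algebraMap (ZMod 2) F (f x) := by
      funext x
      simp
    rw [this]
    exact Submodule.smul_mem _ _ hf

/-- `c` if the bit is true, `1` otherwise -/
def yy (c : F) (b : Bool) : F := 1 + (c - 1) * be F b

theorem yy_eq (c : F) (b : Bool) : yy c b = if b = true then c else 1 := by
  cases b <;> simp [yy, be]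

theorem yy_mem (c : F) (A : Finset (Fin n)) :
    (fun x => ∏ i ∈ A, yy c (x i)) ∈ LF F n A.card := by
  have h1 : ∀ i ∈ A, (fun x : Fin n → Bool => yy c (x i)) ∈ LF F n 1 := by
    intro i _
    exact Submodule.add_mem _ (LF_const (F := F) (n := n) 1 1)
      (Submodule.smul_mem _ (c - 1) (LF_input (F := F) (D := 1) le_rfl i))
  have h3 := LF_prod A h1
  rwa [Nat.mul_one] at h3

theorem yy_mul_sq {w : F} (hw : w ^ 3 = 1) (b : Bool) : yy w b * yy (w ^ 2) b = 1 := by
  rw [yy_eq, yy_eq]
  cases b
  · simp
  · rw [if_pos rfl, if_pos rfl, ← hw]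
    ring

theorem yy_prod_all [Algebra (ZMod 2) F] {w : F} (hw : w ^ 3 = 1) (x : Fin n → Bool) :
    ∏ i, yy w (x i) = ∑ r ∈ Finset.range 3, w ^ r * algebraMap (ZMod 2) F (bz 2 (m3 r x)) := by
  simp only [yy_eq]
  rw [Finset.prod_ite, Finset.prod_const, Finset.prod_const_one, mul_one]
  set k := (Finset.univ.filter (fun i => x i = true)).card with hk
  have h1 : w ^ k = w ^ (k % 3) := by
    conv_lhs => rw [← Nat.div_add_mod k 3]
    rw [pow_add, pow_mul, hw, one_pow, one_mul]
  rw [h1, Finset.sum_eq_single (k % 3)]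
  · have : m3 (k % 3) x = true := by
      unfold m3
      rw [← hk]
      simp
    rw [this]
    simp [bz]
  · intro r _ hr
    have : m3 r x = false := by
      unfold m3
      rw [← hk]
      simpa using Ne.symm hr
    rw [this]
    simp [bz]
  · intro h
    exact absurd (Finset.mem_range.2 (Nat.mod_lt k (by norm_num))) h

/-- coefficients of the indicator of a bit -/
def ca (w : F) (b : Bool) : F := if b = true then -(w - 1)⁻¹ else w * (w - 1)⁻¹

/-- coefficients of the indicator of a bit -/
def cb (w : F) (b : Bool) : F := if b = true then (w - 1)⁻¹ else -(w - 1)⁻¹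

theorem cacb {w : F} (h1 : w ≠ 1) (a b : Bool) :
    cb w a * yy w b + ca w a = if b = a then 1 else 0 := by
  have h2 : w - 1 ≠ 0 := sub_ne_zero.2 h1
  rw [yy_eq]
  cases a <;> cases b <;> simp [ca, cb] <;> field_simp <;> ring

theorem indic {w : F} (h1 : w ≠ 1) (z x : Fin n → Bool) :
    ∏ i, (cb w (z i) * yy w (x i) + ca w (z i)) = if x = z then 1 else 0 := by
  simp only [cacb h1]
  by_cases h : x = z
  · subst h
    simp
  · rw [if_neg h]
    obtain ⟨i, hi⟩ := Function.ne_iff.mp h
    exact Finset.prod_eq_zero (Finset.mem_univ i) (if_neg hi)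

open Classical in
theorem agree [Algebra (ZMod 2) F] {w : F} (hw1 : w ≠ 1) (hw : w ^ 3 = 1) {D : ℕ}
    {P : ℕ → (Fin n → Bool) → ZMod 2} (hP : ∀ r < 3, P r ∈ Low 2 n D) :
    (Finset.univ.filter (fun x => ∀ r < 3, P r x = bz 2 (m3 r x))).card ≤
      ∑ i ∈ Finset.range (n / 2 + D + 1), n.choose i := by
  set G : Finset (Fin n → Bool) :=
    Finset.univ.filter (fun x => ∀ r < 3, P r x = bz 2 (m3 r x)) with hG
  let R : ((Fin n → Bool) → F) →ₗ[F] (G → F) :=
    LinearMap.funLeft F F (fun x : G => (x : Fin n → Bool))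
  have hR : ∀ (f : (Fin n → Bool) → F) (x : G), R f x = f x := fun f x => rfl
  have hQ : (fun x => ∑ r ∈ Finset.range 3, w ^ r * algebraMap (ZMod 2) F (P r x)) ∈
      LF F n D := by
    have : (fun x => ∑ r ∈ Finset.range 3, w ^ r * algebraMap (ZMod 2) F (P r x)) =
        ∑ r ∈ Finset.range 3, (w ^ r) • fun x => algebraMap (ZMod 2) F (P r x) := by
      funext x
      simp [Finset.sum_apply]
    rw [this]
    exact Submodule.sum_mem _ fun r hr => Submodule.smul_mem _ _
      (LF_alg (hP r (Finset.mem_range.1 hr)))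
  have hA : ∀ A : Finset (Fin n), R (fun x => ∏ i ∈ A, yy w (x i)) ∈
      (LF F n (n / 2 + D)).map R := by
    intro A
    by_cases hc : A.card ≤ n / 2
    · exact Submodule.mem_map_of_mem (LF_mono (by omega) (yy_mem w A))
    · have hcard : (Finset.univ \ A).card = n - A.card := by
        rw [Finset.card_sdiff_of_subset (Finset.subset_univ A), Finset.card_univ, Fintype.card_fin]
      have hmem : (fun x => (∑ r ∈ Finset.range 3, w ^ r * algebraMap (ZMod 2) F (P r x)) *
          ∏ i ∈ Finset.univ \ A, yy (w ^ 2) (x i)) ∈ LF F n (n / 2 + D) :=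
        LF_mono (by omega) (LF_mul hQ (yy_mem (w ^ 2) (Finset.univ \ A)))
      refine ⟨_, hmem, ?_⟩
      funext x
      rw [hR, hR]
      have hx : ∀ r < 3, P r x = bz 2 (m3 r x.1) := by
        have h := x.2
        simp only [hG, Finset.mem_filter] at h
        exact h.2
      have h1 : ∑ r ∈ Finset.range 3, w ^ r * algebraMap (ZMod 2) F (P r x) =
          ∏ i, yy w (x.1 i) := by
        rw [yy_prod_all hw]
        exact Finset.sum_congr rfl fun r hr => by rw [hx r (Finset.mem_range.1 hr)]
      show (∑ r ∈ Finset.range 3, w ^ r * algebraMap (ZMod 2) F (P r x)) *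
          ∏ i ∈ Finset.univ \ A, yy (w ^ 2) (x.1 i) = ∏ i ∈ A, yy w (x.1 i)
      rw [h1, ← Finset.prod_sdiff (Finset.subset_univ A),
        mul_comm (∏ i ∈ Finset.univ \ A, yy w (x.1 i)), mul_assoc,
        ← Finset.prod_mul_distrib]
      simp only [yy_mul_sq hw, Finset.prod_const_one, mul_one]
  have hδ : ∀ z : Fin n → Bool, R (fun x => if x = z then 1 else 0) ∈
      (LF F n (n / 2 + D)).map R := by
    intro z
    have h1 : (fun x : Fin n → Bool => (if x = z then 1 else 0 : F)) =
        ∑ A ∈ (Finset.univ : Finset (Fin n)).powerset,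
          ((∏ i ∈ A, cb w (z i)) * ∏ i ∈ Finset.univ \ A, ca w (z i)) •
            (fun x : Fin n → Bool => ∏ i ∈ A, yy w (x i)) := by
      funext x
      rw [← indic hw1 z x, Finset.prod_add]
      simp only [Pi.smul_apply, Finset.sum_apply, smul_eq_mul, Finset.prod_mul_distrib]
      refine Finset.sum_congr rfl fun A _ => ?_
      ring
    rw [h1, map_sum]
    refine Submodule.sum_mem _ fun A _ => ?_
    rw [map_smul]
    exact Submodule.smul_mem _ _ (hA A)
  have htop : (LF F n (n / 2 + D)).map R = ⊤ := by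
    rw [Submodule.eq_top_iff']
    intro g
    rw [pi_eq_sum_univ g]
    refine Submodule.sum_mem _ fun z _ => Submodule.smul_mem _ _ ?_
    have : (fun j : G => (if z = j then 1 else 0 : F)) =
        R (fun x => if x = z then 1 else 0) := by
      funext j
      rw [hR]
      by_cases h : z = j
      · rw [if_pos h, if_pos (by rw [h])]
      · rw [if_neg h, if_neg (fun h' => h (Subtype.ext h'.symm))]
    rw [this]
    exact hδ z
  calc G.card = Module.finrank F (G → F) := by
        rw [Module.finrank_fintype_fun_eq_card, Fintype.card_coe]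
    _ = Module.finrank F ((LF F n (n / 2 + D)).map R) := by
        rw [htop, finrank_top]
    _ ≤ Module.finrank F (LF F n (n / 2 + D)) := Submodule.finrank_map_le _ _
    _ ≤ _ := LF_finrank _

/-- a cube root of unity in the field with four elements -/
theorem exists_w : ∃ w : GaloisField 2 2, w ≠ 1 ∧ w ^ 3 = 1 := by
  classical
  have : Fintype (GaloisField 2 2) := Fintype.ofFinite _
  have hc : Fintype.card (GaloisField 2 2) = 4 := by
    rw [← Nat.card_eq_fintype_card, GaloisField.card 2 2 (by norm_num)]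
    norm_num
  have hu : Fintype.card (GaloisField 2 2)ˣ = 3 := by
    rw [Fintype.card_units, hc]
  obtain ⟨u, hu1⟩ := Fintype.exists_ne_of_one_lt_card (by rw [hu]; norm_num)
    (1 : (GaloisField 2 2)ˣ)
  refine ⟨(u : GaloisField 2 2), fun h => hu1 (Units.ext (by simpa using h)), ?_⟩
  have h3 : u ^ 3 = 1 := by
    rw [← hu]
    exact pow_card_eq_one
  rw [← Units.val_pow_eq_pow_val, h3, Units.val_one]

end B3

open Classical in
theorem agree_m3_le {n D : ℕ} {P : ℕ → (Fin n → Bool) → ZMod 2}
    (hP : ∀ r < 3, P r ∈ Low 2 n D) :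
    (Finset.univ.filter (fun x => ∀ r < 3, P r x = bz 2 (m3 r x))).card ≤
      ∑ i ∈ Finset.range (n / 2 + D + 1), n.choose i := by
  obtain ⟨w, hw1, hw⟩ := B3.exists_w
  exact B3.agree hw1 hw hP

end Pool.Agent.Helper70.AC
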