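import Mathlib
import Pool.Agent.Helper70.AC.A2
import Pool.Agent.Helper70.AC.A3
import Pool.Agent.Helper70.AC.A4
import Pool.Agent.Helper70.AC.B3

/-!
Module B5: parity and counting modulo 3 need constant depth formulas of exponential size.
-/

namespace Pool.Agent.Helper70.AC

theorem b5_num (C d : ℕ) : ∃ k n0 : ℕ, ∀ n ≥ n0, ∀ l : ℕ, l ^ k ≤ 1000 * (n + 2) ^ 4 →
    64 * ((C * (l + 4)) ^ d + 1) ^ 2 ≤ n := by
  set K := 256 * ((C + 1) * 2) ^ (2 * d) with hK
  refine ⟨16 * (d + 1), 16000 * K ^ 8 + 64 * ((C * 8) ^ d + 1) ^ 2 + 2, fun n hn l hl => ?_⟩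
  have hn2 : 2 ≤ n := by omega
  by_cases h4 : l < 4
  · have h1 : (C * (l + 4)) ^ d ≤ (C * 8) ^ d :=
      Nat.pow_le_pow_left (Nat.mul_le_mul_left _ (by omega)) _
    have h2 : 64 * ((C * (l + 4)) ^ d + 1) ^ 2 ≤ 64 * ((C * 8) ^ d + 1) ^ 2 :=
      Nat.mul_le_mul_left _ (Nat.pow_le_pow_left (by omega) _)
    omega
  · by_contra hcon
    push Not at hcon
    have h1 : (C * (l + 4)) ^ d ≤ ((C + 1) * 2 * l) ^ d := by
      apply Nat.pow_le_pow_left
      rw [mul_assoc]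
      exact Nat.mul_le_mul (by omega) (by omega)
    have h2 : 1 ≤ ((C + 1) * 2 * l) ^ d := Nat.one_le_pow _ _ (by
      have : 0 < l := by omega
      positivity)
    have h3 : n ≤ K * l ^ (2 * d) := by
      calc n ≤ 64 * ((C * (l + 4)) ^ d + 1) ^ 2 := hcon.le
        _ ≤ 64 * (2 * ((C + 1) * 2 * l) ^ d) ^ 2 :=
          Nat.mul_le_mul_left _ (Nat.pow_le_pow_left (by omega) _)
        _ = K * l ^ (2 * d) := by
          rw [hK, mul_pow ((C + 1) * 2), mul_comm 2 d, pow_mul, pow_mul]; ring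
    have h5 : n ^ 8 ≤ K ^ 8 * (16000 * n ^ 4) := by
      calc n ^ 8 ≤ (K * l ^ (2 * d)) ^ 8 := Nat.pow_le_pow_left h3 _
        _ = K ^ 8 * l ^ (16 * d) := by rw [mul_pow, ← pow_mul]; ring_nf
        _ ≤ K ^ 8 * l ^ (16 * (d + 1)) :=
          Nat.mul_le_mul_left _ (Nat.pow_le_pow_right (by omega) (by omega))
        _ ≤ K ^ 8 * (1000 * (n + 2) ^ 4) := Nat.mul_le_mul_left _ hl
        _ ≤ K ^ 8 * (1000 * (2 * n) ^ 4) :=
          Nat.mul_le_mul_left _ (Nat.mul_le_mul_left _ (Nat.pow_le_pow_left (by omega) _))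
        _ = K ^ 8 * (16000 * n ^ 4) := by rw [mul_pow]; ring
    have h6 : n ^ 4 * n ^ 4 ≤ (16000 * K ^ 8) * n ^ 4 := by
      calc n ^ 4 * n ^ 4 = n ^ 8 := by ring
        _ ≤ K ^ 8 * (16000 * n ^ 4) := h5
        _ = _ := by ring
    have h7 : n ^ 4 ≤ 16000 * K ^ 8 := le_of_mul_le_mul_right h6 (by positivity)
    have h8 : n ≤ n ^ 4 := Nat.le_self_pow (by norm_num) n
    omega

/-- error of the approximation of a formula of size `2 ^ l` -/
theorem b5_err {q n d l : ℕ} [Fact q.Prime] {f : (Fin n → Bool) → Bool}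
    (hC : Ckt q n d (2 ^ l) f) :
    ∃ P : (Fin n → Bool) → ZMod q, P ∈ Low q n (((q - 1) * (l + 4)) ^ d) ∧
      16 * (Finset.univ.filter (fun x => P x ≠ bz q (f x))).card ≤ 2 ^ n := by
  obtain ⟨P, hP, hE⟩ := approx hC (l := l + 4) (by omega)
  refine ⟨P, hP, ?_⟩
  have hpos : 0 < 2 ^ l := by positivity
  have h1 : 16 * (Finset.univ.filter (fun x => P x ≠ bz q (f x))).card * 2 ^ l ≤
      2 ^ n * 2 ^ l := by
    calc 16 * (Finset.univ.filter (fun x => P x ≠ bz q (f x))).card * 2 ^ l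
        = (Finset.univ.filter (fun x => P x ≠ bz q (f x))).card * 2 ^ (l + 4) := by
          rw [pow_add]; ring
      _ ≤ 2 ^ l * 2 ^ n := hE
      _ = 2 ^ n * 2 ^ l := by ring
  exact le_of_mul_le_mul_right h1 hpos

/-- Parity needs formulas of constant depth of size `2 ^ (n ^ δ)` (Smolensky). -/
theorem par_hard2 {q : ℕ} (hq : q.Prime) (hq2 : q ≠ 2) (d : ℕ) :
    ∃ k n0 : ℕ, ∀ n ≥ n0, ∀ l : ℕ, l ^ k ≤ 1000 * (n + 2) ^ 4 →
      ¬ Ckt q n d (2 ^ l) (par (n := n)) := by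
  classical
  have : Fact q.Prime := ⟨hq⟩
  obtain ⟨k, n0, h0⟩ := b5_num (q - 1) d
  refine ⟨k, n0, fun n hn l hl hC => ?_⟩
  obtain ⟨P, hP, hE⟩ := b5_err hC
  have hA := agree_par_le hq2 hP
  have hS := sum_choose_le (h0 n hn l hl)
  have hsplit : (Finset.univ.filter (fun x => P x = bz q (par x))).card +
      (Finset.univ.filter (fun x => P x ≠ bz q (par x))).card = 2 ^ n := by
    rw [Finset.card_filter_add_card_filter_not]
    simp
  have hpos : 0 < 2 ^ n := by positivity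
  omega

/-- The three functions counting modulo 3 do not all have formulas of constant depth and of size
`2 ^ (n ^ o(1))` with MOD 2 gates. -/
theorem m3_hard2 (d : ℕ) :
    ∃ k n0 : ℕ, ∀ n ≥ n0, ∀ l : ℕ, l ^ k ≤ 1000 * (n + 2) ^ 4 →
      ¬ ∀ r < 3, Ckt 2 n d (2 ^ l) (m3 r (n := n)) := by
  classical
  have : Fact (Nat.Prime 2) := ⟨Nat.prime_two⟩
  obtain ⟨k, n0, h0⟩ := b5_num (2 - 1) d
  refine ⟨k, n0, fun n hn l hl hC => ?_⟩
  have h1 : ∀ r : ℕ, ∃ P : (Fin n → Bool) → ZMod 2, r < 3 →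
      (P ∈ Low 2 n (((2 - 1) * (l + 4)) ^ d) ∧
      16 * (Finset.univ.filter (fun x => P x ≠ bz 2 (m3 r x))).card ≤ 2 ^ n) := by
    intro r
    by_cases hr : r < 3
    · obtain ⟨P, hP⟩ := b5_err (hC r hr)
      exact ⟨P, fun _ => hP⟩
    · exact ⟨0, fun h => absurd h hr⟩
  choose P hP using h1
  have hA := agree_m3_le (n := n) (P := P) (fun r hr => (hP r hr).1)
  have hS := sum_choose_le (h0 n hn l hl)
  have hcov : (Finset.univ : Finset (Fin n → Bool)) ⊆
      (Finset.univ.filter (fun x => ∀ r < 3, P r x = bz 2 (m3 r x))) ∪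
      ((Finset.univ.filter (fun x => P 0 x ≠ bz 2 (m3 0 x))) ∪
      ((Finset.univ.filter (fun x => P 1 x ≠ bz 2 (m3 1 x))) ∪
      (Finset.univ.filter (fun x => P 2 x ≠ bz 2 (m3 2 x))))) := by
    intro x _
    simp only [Finset.mem_union, Finset.mem_filter, Finset.mem_univ, true_and]
    by_contra hcon
    push Not at hcon
    obtain ⟨⟨r, hr, hne⟩, h0', h1', h2'⟩ := hcon
    interval_cases r
    · exact hne h0'
    · exact hne h1'
    · exact hne h2'
  have hcard := Finset.card_le_card hcov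
  rw [Finset.card_univ] at hcard
  have hc2 : Fintype.card (Fin n → Bool) = 2 ^ n := by simp
  rw [hc2] at hcard
  have u1 := Finset.card_union_le
    (Finset.univ.filter (fun x : Fin n → Bool => ∀ r < 3, P r x = bz 2 (m3 r x)))
    ((Finset.univ.filter (fun x => P 0 x ≠ bz 2 (m3 0 x))) ∪
      ((Finset.univ.filter (fun x => P 1 x ≠ bz 2 (m3 1 x))) ∪
      (Finset.univ.filter (fun x => P 2 x ≠ bz 2 (m3 2 x)))))
  have u2 := Finset.card_union_le
    (Finset.univ.filter (fun x : Fin n → Bool => P 0 x ≠ bz 2 (m3 0 x)))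
      ((Finset.univ.filter (fun x => P 1 x ≠ bz 2 (m3 1 x))) ∪
      (Finset.univ.filter (fun x => P 2 x ≠ bz 2 (m3 2 x))))
  have u3 := Finset.card_union_le
    (Finset.univ.filter (fun x : Fin n → Bool => P 1 x ≠ bz 2 (m3 1 x)))
      (Finset.univ.filter (fun x => P 2 x ≠ bz 2 (m3 2 x)))
  have e0 := (hP 0 (by norm_num)).2
  have e1 := (hP 1 (by norm_num)).2
  have e2 := (hP 2 (by norm_num)).2
  have hpos : 0 < 2 ^ n := by positivity
  omega

end Pool.Agent.Helper70.AC
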