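import Mathlib
import Pool.Agent.Helper70.AC.A6
import Pool.Agent.Helper70.AC.B3

/-!
Module B6: the satisfiability problem encodes counting modulo 3 by projections.
-/

namespace Pool.Agent.Helper70.AC

open Pool.Agent.Helper72

/-! ### Formulas -/

/-- a formula with the constant value `x` -/
def b6c (x : Bool) : BForm := a6op x (BForm.var 0) (BForm.neg (BForm.var 0))

theorem b6c_eval (x : Bool) (w : ℕ → Bool) : (b6c x).eval w = x := by
  cases x <;> cases h : w 0 <;> simp [b6c, a6op, BForm.eval, h]

/-- `φ` if `x` is true, `ψ` otherwise -/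
def b6S (x : Bool) (φ ψ : BForm) : BForm :=
  BForm.disj (BForm.conj (b6c x) φ) (BForm.conj (BForm.neg (b6c x)) ψ)

theorem b6S_eval (x : Bool) (φ ψ : BForm) (w : ℕ → Bool) :
    (b6S x φ ψ).eval w = if x then φ.eval w else ψ.eval w := by
  unfold b6S
  simp only [BForm.eval, b6c_eval]
  cases x <;> simp

/-- equivalence -/
def b6I (u v : BForm) : BForm := a6E false u v

theorem b6I_eval (u v : BForm) (w : ℕ → Bool) :
    (b6I u v).eval w = true ↔ u.eval w = v.eval w := by
  unfold b6I
  rw [a6E_eval, Bool.xor_false]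

/-- the step of a true bit -/
def b6T (i : ℕ) : BForm :=
  BForm.conj (b6I (BForm.var (2 * (i + 1)))
      (BForm.conj (BForm.neg (BForm.var (2 * i))) (BForm.neg (BForm.var (2 * i + 1)))))
    (b6I (BForm.var (2 * (i + 1) + 1)) (BForm.var (2 * i)))

/-- the step of a false bit -/
def b6F (i : ℕ) : BForm :=
  BForm.conj (b6I (BForm.var (2 * (i + 1))) (BForm.var (2 * i)))
    (b6I (BForm.var (2 * (i + 1) + 1)) (BForm.var (2 * i + 1)))

theorem b6T_eval (i : ℕ) (w : ℕ → Bool) : (b6T i).eval w = true ↔
    w (2 * (i + 1)) = (!w (2 * i) && !w (2 * i + 1)) ∧ w (2 * (i + 1) + 1) = w (2 * i) := by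
  have h : (b6T i).eval w = ((b6I (BForm.var (2 * (i + 1)))
      (BForm.conj (BForm.neg (BForm.var (2 * i))) (BForm.neg (BForm.var (2 * i + 1))))).eval w &&
    (b6I (BForm.var (2 * (i + 1) + 1)) (BForm.var (2 * i))).eval w) := rfl
  rw [h, Bool.and_eq_true, b6I_eval, b6I_eval]
  rfl

theorem b6F_eval (i : ℕ) (w : ℕ → Bool) : (b6F i).eval w = true ↔
    w (2 * (i + 1)) = w (2 * i) ∧ w (2 * (i + 1) + 1) = w (2 * i + 1) := by
  have h : (b6F i).eval w = ((b6I (BForm.var (2 * (i + 1))) (BForm.var (2 * i))).eval w &&
    (b6I (BForm.var (2 * (i + 1) + 1)) (BForm.var (2 * i + 1))).eval w) := rfl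
  rw [h, Bool.and_eq_true, b6I_eval, b6I_eval]
  rfl

/-- a literal -/
def b6L (b : Bool) (k : ℕ) : BForm := if b then BForm.var k else BForm.neg (BForm.var k)

theorem b6L_eval (b : Bool) (k : ℕ) (w : ℕ → Bool) : (b6L b k).eval w = true ↔ w k = b := by
  cases b <;> simp [b6L, BForm.eval]

/-- initial and final condition -/
def b6B (r n : ℕ) : BForm :=
  BForm.conj (BForm.conj (BForm.neg (BForm.var 0)) (BForm.neg (BForm.var 1)))
    (BForm.conj (b6L (decide (r = 1)) (2 * n)) (b6L (decide (r = 2)) (2 * n + 1)))

theorem b6B_eval (r n : ℕ) (w : ℕ → Bool) : (b6B r n).eval w = true ↔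
    w 0 = false ∧ w 1 = false ∧ w (2 * n) = decide (r = 1) ∧ w (2 * n + 1) = decide (r = 2) := by
  have h : (b6B r n).eval w = ((!w 0 && !w 1) &&
      ((b6L (decide (r = 1)) (2 * n)).eval w && (b6L (decide (r = 2)) (2 * n + 1)).eval w)) := rfl
  rw [h]
  simp only [Bool.and_eq_true, b6L_eval, Bool.not_eq_true', and_assoc]

/-- the formula -/
def b6Phi (r : ℕ) {n : ℕ} (x : Fin n → Bool) : List (Fin n) → BForm
  | [] => b6B r n
  | i :: l => BForm.conj (b6S (x i) (b6T i) (b6F i)) (b6Phi r x l)

theorem b6Phi_eval (r : ℕ) {n : ℕ} (x : Fin n → Bool) (l : List (Fin n)) (w : ℕ → Bool) :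
    (b6Phi r x l).eval w = true ↔
      (∀ i ∈ l, if x i then (b6T i).eval w = true else (b6F i).eval w = true) ∧
        (b6B r n).eval w = true := by
  induction l with
  | nil => simp [b6Phi]
  | cons i l ih =>
    have h : (b6Phi r x (i :: l)).eval w =
        ((b6S (x i) (b6T i) (b6F i)).eval w && (b6Phi r x l).eval w) := rfl
    rw [h, Bool.and_eq_true, ih, b6S_eval]
    simp only [List.mem_cons, forall_eq_or_imp, and_assoc]
    cases x i <;> simp

/-! ### Bits -/

/-- the bits of the code of `b6c (x i)` -/
def b6cb {n : ℕ} (i : Fin n) : List (A6Bit n) :=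
  [A6Bit.const true, A6Bit.pos i, A6Bit.neg i] ++
    (a6c (BForm.var 0) ++ a6c (BForm.neg (BForm.var 0)))

theorem b6cb_val {n : ℕ} (x : Fin n → Bool) (i : Fin n) :
    (b6cb i).map (A6Bit.val x) = (b6c (x i)).code := by
  unfold b6cb b6c
  rw [a6op_code]
  simp only [List.map_append, a6c_val, List.map_cons, List.map_nil, A6Bit.val]

/-- the bits of the code of `b6S (x i) φ ψ` -/
def b6Sb {n : ℕ} (i : Fin n) (φ ψ : BForm) : List (A6Bit n) :=
  [A6Bit.const true, A6Bit.const true, A6Bit.const false] ++
    (([A6Bit.const true, A6Bit.const false, A6Bit.const true] ++ (b6cb i ++ a6c φ)) ++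
      ([A6Bit.const true, A6Bit.const false, A6Bit.const true] ++
        (([A6Bit.const true, A6Bit.const false, A6Bit.const false] ++ b6cb i) ++ a6c ψ)))

theorem b6Sb_val {n : ℕ} (x : Fin n → Bool) (i : Fin n) (φ ψ : BForm) :
    (b6Sb i φ ψ).map (A6Bit.val x) = (b6S (x i) φ ψ).code := by
  unfold b6Sb b6S
  simp only [BForm.code, List.map_append, b6cb_val, a6c_val, List.map_cons, List.map_nil,
    A6Bit.val]

/-- the bits of the code of the formula -/
def b6Phib (r : ℕ) {n : ℕ} : List (Fin n) → List (A6Bit n)
  | [] => a6c (b6B r n)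
  | i :: l => [A6Bit.const true, A6Bit.const false, A6Bit.const true] ++
      (b6Sb i (b6T i) (b6F i) ++ b6Phib r l)

theorem b6Phib_val (r : ℕ) {n : ℕ} (x : Fin n → Bool) (l : List (Fin n)) :
    (b6Phib r l).map (A6Bit.val x) = (b6Phi r x l).code := by
  induction l with
  | nil => exact a6c_val x _
  | cons i l ih =>
    simp only [b6Phib, b6Phi, BForm.code, List.map_append, ih, b6Sb_val, List.map_cons,
      List.map_nil, A6Bit.val]

/-! ### Lengths -/

theorem b6_neg_length (φ : BForm) : (BForm.neg φ).code.length = 3 + φ.code.length := by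
  simp only [BForm.code, List.length_append, List.length_cons, List.length_nil]

theorem b6_conj_length (φ ψ : BForm) :
    (BForm.conj φ ψ).code.length = 3 + φ.code.length + ψ.code.length := by
  simp only [BForm.code, List.length_append, List.length_cons, List.length_nil]
  omega

theorem b6_disj_length (φ ψ : BForm) :
    (BForm.disj φ ψ).code.length = 3 + φ.code.length + ψ.code.length := by
  simp only [BForm.code, List.length_append, List.length_cons, List.length_nil]
  omega

theorem b6I_length (u v : BForm) :
    (b6I u v).code.length = 15 + 2 * u.code.length + 2 * v.code.length := by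
  have h : b6I u v = BForm.disj (BForm.conj u v) (BForm.conj (BForm.neg u) (BForm.neg v)) := rfl
  rw [h, b6_disj_length, b6_conj_length, b6_conj_length, b6_neg_length, b6_neg_length]
  omega

theorem b6L_length (b : Bool) (k : ℕ) : (b6L b k).code.length ≤ 6 + 3 * k := by
  have h := a6_var_length k
  cases b
  · show (BForm.neg (BForm.var k)).code.length ≤ _
    rw [b6_neg_length]
    omega
  · show (BForm.var k).code.length ≤ _
    omega

theorem b6B_length (r n : ℕ) : (b6B r n).code.length ≤ 50 + 12 * n := by
  unfold b6B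
  have h0 := a6_var_length 0
  have h1 := a6_var_length 1
  have h2 := b6L_length (decide (r = 1)) (2 * n)
  have h3 := b6L_length (decide (r = 2)) (2 * n + 1)
  rw [b6_conj_length, b6_conj_length, b6_conj_length, b6_neg_length, b6_neg_length]
  omega

theorem b6T_length {i n : ℕ} (hi : i < n) : (b6T i).code.length ≤ 200 + 100 * n := by
  unfold b6T
  have h0 := a6_var_length (2 * i)
  have h1 := a6_var_length (2 * i + 1)
  have h2 := a6_var_length (2 * (i + 1))
  have h3 := a6_var_length (2 * (i + 1) + 1)
  rw [b6_conj_length, b6I_length, b6I_length, b6_conj_length, b6_neg_length, b6_neg_length]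
  omega

theorem b6F_length {i n : ℕ} (hi : i < n) : (b6F i).code.length ≤ 200 + 100 * n := by
  unfold b6F
  have h0 := a6_var_length (2 * i)
  have h1 := a6_var_length (2 * i + 1)
  have h2 := a6_var_length (2 * (i + 1))
  have h3 := a6_var_length (2 * (i + 1) + 1)
  rw [b6_conj_length, b6I_length, b6I_length]
  omega

theorem b6Sb_length {n : ℕ} (i : Fin n) (φ ψ : BForm) :
    (b6Sb i φ ψ).length ≤ 100 + φ.code.length + ψ.code.length := by
  have h0 := a6_var_length 0
  simp only [b6Sb, b6cb, a6c, List.length_map, List.length_append, List.length_cons,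
    List.length_nil, b6_neg_length]
  omega

theorem b6Phib_length_ge (r : ℕ) {n : ℕ} (l : List (Fin n)) :
    l.length ≤ (b6Phib r l).length := by
  induction l with
  | nil => simp
  | cons i l ih =>
    simp only [b6Phib, List.length_append, List.length_cons, List.length_nil]
    omega

theorem b6Phib_length_le (r : ℕ) {n : ℕ} (l : List (Fin n)) :
    (b6Phib r l).length ≤ l.length * (550 + 200 * n) + (50 + 12 * n) := by
  induction l with
  | nil =>
    have h := b6B_length r n
    simp only [b6Phib, a6c, List.length_map, List.length_nil]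
    omega
  | cons i l ih =>
    have hi : (i : ℕ) < n := i.2
    have h1 := b6T_length hi
    have h2 := b6F_length hi
    have h3 := b6Sb_length i (b6T i) (b6F i)
    have h4 : (i :: l).length * (550 + 200 * n) = l.length * (550 + 200 * n) +
        (550 + 200 * n) := by
      rw [List.length_cons]
      ring
    rw [h4]
    simp only [b6Phib, List.length_append, List.length_cons, List.length_nil]
    omega

/-! ### Counting -/

/-- number of true bits among the first `k` bits -/
def b6n {n : ℕ} (x : Fin n → Bool) (k : ℕ) : ℕ :=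
  (Finset.univ.filter (fun i : Fin n => (i : ℕ) < k ∧ x i = true)).card

theorem b6n_zero {n : ℕ} (x : Fin n → Bool) : b6n x 0 = 0 := by
  simp [b6n]

theorem b6n_all {n : ℕ} (x : Fin n → Bool) :
    b6n x n = (Finset.univ.filter (fun i => x i = true)).card := by
  unfold b6n
  congr 1
  ext i
  simp

theorem b6n_succ {n : ℕ} (x : Fin n → Bool) (i : Fin n) :
    b6n x (i + 1) = b6n x i + if x i then 1 else 0 := by
  unfold b6n
  cases hx : x i with
  | false =>
    have : (Finset.univ.filter (fun j : Fin n => (j : ℕ) < i + 1 ∧ x j = true)) =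
        Finset.univ.filter (fun j : Fin n => (j : ℕ) < i ∧ x j = true) := by
      ext j
      simp only [Finset.mem_filter, Finset.mem_univ, true_and]
      constructor
      · rintro ⟨h1, h2⟩
        refine ⟨?_, h2⟩
        rcases Nat.lt_succ_iff_lt_or_eq.mp h1 with h | h
        · exact h
        · rw [Fin.ext h, hx] at h2
          simp at h2
      · rintro ⟨h1, h2⟩
        exact ⟨by omega, h2⟩
    rw [this]
    simp
  | true =>
    have : (Finset.univ.filter (fun j : Fin n => (j : ℕ) < i + 1 ∧ x j = true)) =
        insert i (Finset.univ.filter (fun j : Fin n => (j : ℕ) < i ∧ x j = true)) := by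
      ext j
      simp only [Finset.mem_insert, Finset.mem_filter, Finset.mem_univ, true_and]
      constructor
      · rintro ⟨h1, h2⟩
        rcases Nat.lt_succ_iff_lt_or_eq.mp h1 with h | h
        · exact Or.inr ⟨h, h2⟩
        · exact Or.inl (Fin.ext h)
      · rintro (rfl | ⟨h1, h2⟩)
        · exact ⟨by omega, hx⟩
        · exact ⟨by omega, h2⟩
    rw [this, Finset.card_insert_of_notMem (by simp)]
    simp

/-- first state bit -/
def b6a {n : ℕ} (x : Fin n → Bool) (k : ℕ) : Bool := decide (b6n x k % 3 = 1)

/-- second state bit -/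
def b6b {n : ℕ} (x : Fin n → Bool) (k : ℕ) : Bool := decide (b6n x k % 3 = 2)

theorem b6_step {n : ℕ} (x : Fin n → Bool) (i : Fin n) :
    (x i = true → b6a x (i + 1) = (!b6a x i && !b6b x i) ∧ b6b x (i + 1) = b6a x i) ∧
      (x i = false → b6a x (i + 1) = b6a x i ∧ b6b x (i + 1) = b6b x i) := by
  have h := b6n_succ x i
  constructor
  · intro hx
    rw [hx, if_pos rfl] at h
    unfold b6a b6b
    rw [h]
    have h3 : b6n x i % 3 < 3 := Nat.mod_lt _ (by norm_num)
    have h4 : (b6n x i + 1) % 3 = (b6n x i % 3 + 1) % 3 := by omega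
    rw [h4]
    generalize b6n x i % 3 = c at h3
    interval_cases c <;> decide
  · intro hx
    rw [hx] at h
    simp only [Bool.false_eq_true, if_false, add_zero] at h
    unfold b6a b6b
    rw [h]
    exact ⟨rfl, rfl⟩

/-- the satisfying assignment -/
def b6w {n : ℕ} (x : Fin n → Bool) (j : ℕ) : Bool :=
  if j % 2 = 0 then b6a x (j / 2) else b6b x (j / 2)

theorem b6w_even {n : ℕ} (x : Fin n → Bool) (k : ℕ) : b6w x (2 * k) = b6a x k := by
  unfold b6w
  rw [if_pos (by omega), Nat.mul_div_cancel_left _ (by norm_num)]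

theorem b6w_odd {n : ℕ} (x : Fin n → Bool) (k : ℕ) : b6w x (2 * k + 1) = b6b x k := by
  unfold b6w
  rw [if_neg (by omega), show (2 * k + 1) / 2 = k by omega]

/-- For every `n` there is a projection from `n` bits to `m` bits, `n ≤ m ≤ 1000 (n + 2) ^ 4`,
whose values are codes of formulas, satisfiable exactly when the number of true bits is `r`
modulo 3. -/
theorem sat_encodes_m3 (r n : ℕ) (hr : r < 3) : ∃ (m : ℕ) (π : (Fin n → Bool) → Fin m → Bool),
    n ≤ m ∧ m ≤ 1000 * (n + 2) ^ 4 ∧ IsProj π ∧ ∀ x, List.ofFn (π x) ∈ SAT ↔ m3 r x = true := by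
  refine ⟨(b6Phib r (List.finRange n)).length,
    fun x j => A6Bit.val x ((b6Phib r (List.finRange n)).get j), ?_, ?_, ?_, ?_⟩
  · have h := b6Phib_length_ge r (List.finRange n)
    rwa [List.length_finRange] at h
  · have h := b6Phib_length_le r (List.finRange n)
    rw [List.length_finRange] at h
    refine h.trans ?_
    have h2 : (n + 2) ^ 2 ≤ (n + 2) ^ 4 := Nat.pow_le_pow_right (by omega) (by norm_num)
    nlinarith
  · intro j
    show (∃ b, ∀ x, A6Bit.val x ((b6Phib r (List.finRange n)).get j) = b) ∨
      (∃ i, ∀ x, A6Bit.val x ((b6Phib r (List.finRange n)).get j) = x i) ∨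
      ∃ i, ∀ x, A6Bit.val x ((b6Phib r (List.finRange n)).get j) = !(x i)
    cases (b6Phib r (List.finRange n)).get j with
    | const b => exact Or.inl ⟨b, fun x => rfl⟩
    | pos i => exact Or.inr (Or.inl ⟨i, fun x => rfl⟩)
    | neg i => exact Or.inr (Or.inr ⟨i, fun x => rfl⟩)
  · intro x
    have hcode : List.ofFn (fun j => A6Bit.val x ((b6Phib r (List.finRange n)).get j)) =
        (b6Phi r x (List.finRange n)).code := by
      rw [← b6Phib_val]
      have : (fun j => A6Bit.val x ((b6Phib r (List.finRange n)).get j)) =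
          A6Bit.val x ∘ (b6Phib r (List.finRange n)).get := rfl
      rw [this, ← List.map_ofFn, List.ofFn_get]
    rw [hcode]
    constructor
    · rintro ⟨φ, hφ, w, hw⟩
      rw [code_injective hφ] at hw
      rw [b6Phi_eval, b6B_eval] at hw
      obtain ⟨h1, h2, h3, h4, h5⟩ := hw
      have h6 : ∀ k, k ≤ n → w (2 * k) = b6a x k ∧ w (2 * k + 1) = b6b x k := by
        intro k
        induction k with
        | zero =>
          intro _
          refine ⟨?_, ?_⟩
          · rw [Nat.mul_zero, h2]
            simp [b6a, b6n_zero]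
          · rw [Nat.mul_zero, h3]
            simp [b6b, b6n_zero]
        | succ k ih =>
          intro hk
          obtain ⟨i1, i2⟩ := ih (by omega)
          have h7 := h1 ⟨k, hk⟩ (List.mem_finRange _)
          obtain ⟨s1, s2⟩ := b6_step x ⟨k, hk⟩
          cases hx : x ⟨k, hk⟩ with
          | true =>
            rw [hx, if_pos rfl, b6T_eval] at h7
            obtain ⟨s3, s4⟩ := s1 hx
            simp only at h7 s3 s4
            exact ⟨by rw [h7.1, s3, i1, i2], by rw [h7.2, s4, i1]⟩
          | false =>
            rw [hx] at h7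
            simp only [Bool.false_eq_true, if_false, b6F_eval] at h7
            obtain ⟨s3, s4⟩ := s2 hx
            simp only at s3 s4
            exact ⟨by rw [h7.1, s3, i1], by rw [h7.2, s4, i2]⟩
      obtain ⟨h7, h8⟩ := h6 n le_rfl
      rw [h4] at h7
      rw [h5] at h8
      unfold b6a at h7
      unfold b6b at h8
      rw [b6n_all] at h7 h8
      unfold m3
      rw [decide_eq_true_iff]
      rw [decide_eq_decide] at h7 h8
      omega
    · intro hx
      refine ⟨_, rfl, b6w x, ?_⟩
      unfold m3 at hx
      rw [decide_eq_true_iff] at hx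
      rw [b6Phi_eval, b6B_eval]
      refine ⟨fun i _ => ?_, ?_, ?_, ?_, ?_⟩
      · obtain ⟨s1, s2⟩ := b6_step x i
        cases hxi : x i with
        | true =>
          rw [if_pos rfl, b6T_eval, b6w_even, b6w_even, b6w_odd, b6w_odd]
          exact s1 hxi
        | false =>
          simp only [Bool.false_eq_true, if_false]
          rw [b6F_eval, b6w_even, b6w_even, b6w_odd, b6w_odd]
          exact s2 hxi
      · have := b6w_even x 0
        rw [Nat.mul_zero] at this
        rw [this]
        simp [b6a, b6n_zero]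
      · have := b6w_odd x 0
        rw [Nat.mul_zero, zero_add] at this
        rw [this]
        simp [b6b, b6n_zero]
      · rw [b6w_even]
        unfold b6a
        rw [b6n_all, hx]
      · rw [b6w_odd]
        unfold b6b
        rw [b6n_all, hx]

end Pool.Agent.Helper70.AC
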