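import Mathlib
import Pool.Agent.Helper72.Defs
import Pool.Agent.Helper4.SatNP

/-!
SAT has at least `2 ^ j` words of length `3 j + 6`.
-/

namespace Pool.Agent.Helper70.AC

open Pool.Agent.Helper72 Computability

theorem flat_len (l : List Bool) :
    (l.flatMap (fun b => [false, true, b])).length = 3 * l.length := by
  induction l with
  | nil => rfl
  | cons b l ih =>
    rw [List.flatMap_cons, List.length_append, ih, List.length_cons]
    simp only [List.length_cons, List.length_nil]
    omega

theorem flat_inj : ∀ l l' : List Bool,
    l.flatMap (fun b => [false, true, b]) = l'.flatMap (fun b => [false, true, b]) → l = l'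
  | [], [], _ => rfl
  | [], b :: l', h => by simp at h
  | b :: l, [], h => by simp at h
  | b :: l, b' :: l', h => by
    rw [List.flatMap_cons, List.flatMap_cons] at h
    simp only [List.cons_append, List.nil_append, List.cons.injEq, true_and] at h
    rw [h.1, flat_inj l l' h.2]

theorem sat_dense {S : Set (List Bool)} {n0 : ℕ}
    (hS : ∀ z : List Bool, n0 ≤ z.length → (z ∈ S ↔ z ∈ SAT)) :
    ∀ j ≥ n0, 2 ^ j ≤ {w : List Bool | w ∈ S ∧ w.length = 3 * j + 6}.ncard := by
  intro j hj
  set Y : Set (List Bool) := {y | y.length = j} with hY
  have hYc : Y.ncard = 2 ^ j := by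
    have h3 : Nat.card {y : List Bool | y.length = j} = 2 ^ j := by
      have h4 : Nat.card (List.Vector Bool j) = 2 ^ j := by simp
      exact h4
    rw [← h3]
    rfl
  rw [← hYc]
  set f : List Bool → List Bool := fun l =>
    [false, false, true] ++ (l ++ [true]).flatMap (fun b => [false, true, b]) with hf
  have hlen : ∀ l ∈ Y, (f l).length = 3 * j + 6 := by
    intro l hl
    have hl' : l.length = j := hl
    simp only [hf, List.length_append, flat_len, List.length_cons, List.length_nil, hl']
    omega
  refine Set.ncard_le_ncard_of_injOn f ?_ ?_ ?_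
  · intro l hl
    refine ⟨?_, hlen l hl⟩
    rw [hS _ (by rw [hlen l hl]; omega)]
    obtain ⟨n, hn⟩ := Pool.Agent.Helper4.SatNP.exists_encodeNat l
    refine ⟨BForm.var n, ?_, fun _ => true, rfl⟩
    rw [BForm.code, hn]
  · intro l _ l' _ h
    simp only [hf] at h
    have h1 := flat_inj _ _ (List.append_cancel_left h)
    exact List.append_cancel_right h1
  · exact (List.finite_length_eq Bool (3 * j + 6)).subset fun w hw => hw.2

end Pool.Agent.Helper70.AC
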