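import Mathlib
import Pool.Agent.Helper70.AC.B5
import Pool.Agent.Helper70.AC.A6
import Pool.Agent.Helper70.AC.B6
import Pool.Agent.Helper70.AC.A7
import Pool.Agent.Helper70.AC.Defs2

/-!
A set that agrees with SAT on all long words has no small formulas of constant depth.
-/

namespace Pool.Agent.Helper70.AC

open Pool.Agent.Helper72

theorem no_small {q : ℕ} (hq : q.Prime) {S : Set (List Bool)} (n0 : ℕ)
    (hS : ∀ z : List Bool, n0 ≤ z.length → (z ∈ S ↔ z ∈ SAT)) : ¬ SmallDepth q S := by
  classical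
  rintro ⟨d, h⟩
  have key : ∀ {n m : ℕ} {π : (Fin n → Bool) → Fin m → Bool} {f : (Fin n → Bool) → Bool} {l : ℕ},
      n0 ≤ m → IsProj π → (∀ x, List.ofFn (π x) ∈ SAT ↔ f x = true) →
      Ckt q m d (2 ^ l) (slice S m) → Ckt q n d (2 ^ l) f := by
    intro n m π f l hm hπ hf hC
    have h1 := hC.proj hπ
    have h2 : (fun x => slice S m (π x)) = f := by
      funext x
      have h3 : List.ofFn (π x) ∈ S ↔ f x = true := by
        rw [hS _ (by simpa using hm), hf]
      unfold slice
      by_cases hx : f x = true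
      · rw [hx, decide_eq_true (h3.2 hx)]
      · rw [decide_eq_false (fun hc => hx (h3.1 hc))]
        simpa using hx
    rwa [h2] at h1
  by_cases hq2 : q = 2
  · subst hq2
    obtain ⟨k, n1, h1⟩ := m3_hard2 d
    obtain ⟨n2, h2⟩ := h k
    set n := n0 + n1 + n2 with hn
    have h3 : ∀ r : ℕ, ∃ l : ℕ, r < 3 →
        (l ^ k ≤ 1000 * (n + 2) ^ 4 ∧ Ckt 2 n d (2 ^ l) (m3 r (n := n))) := by
      intro r
      by_cases hr : r < 3
      · obtain ⟨m, π, hnm, hm, hπ, hx⟩ := sat_encodes_m3 r n hr
        obtain ⟨l, hl, hC⟩ := h2 m (by omega)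
        exact ⟨l, fun _ => ⟨hl.trans hm, key (by omega) hπ hx hC⟩⟩
      · exact ⟨0, fun h => absurd h hr⟩
    choose l hl using h3
    set L := max (l 0) (max (l 1) (l 2)) with hL
    have hLk : L ^ k ≤ 1000 * (n + 2) ^ 4 := by
      rcases max_choice (l 0) (max (l 1) (l 2)) with h | h
      · rw [hL, h]; exact (hl 0 (by norm_num)).1
      · rcases max_choice (l 1) (l 2) with h' | h'
        · rw [hL, h, h']; exact (hl 1 (by norm_num)).1
        · rw [hL, h, h']; exact (hl 2 (by norm_num)).1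
    refine h1 n (by omega) L hLk fun r hr => ?_
    refine Ckt.weaken d _ le_rfl (Nat.pow_le_pow_right (by norm_num) ?_) (hl r hr).2
    interval_cases r
    · exact le_max_left _ _
    · exact (le_max_left _ _).trans (le_max_right _ _)
    · exact (le_max_right _ _).trans (le_max_right _ _)
  · obtain ⟨k, n1, h1⟩ := par_hard2 hq hq2 d
    obtain ⟨n2, h2⟩ := h k
    set n := n0 + n1 + n2 with hn
    obtain ⟨m, π, hnm, hm, hπ, hx⟩ := sat_encodes_par n
    obtain ⟨l, hl, hC⟩ := h2 m (by omega)
    refine h1 n (by omega) l (hl.trans (hm.trans ?_)) (key (by omega) hπ hx hC)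
    exact Nat.mul_le_mul_right _ (by norm_num)

end Pool.Agent.Helper70.AC
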