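import Pool.Agent.Helper72.MainThm2

/-!
Rigidity: a polynomial time set that agrees with SAT on the Kolmogorov-simple words agrees with
SAT on all words that are long enough.
-/

namespace Pool.Agent.Helper70.AC

open Function Turing Computability Filter Pool.Agent.Helper72

/-- the symmetric difference program: the flag of `χ z` xor `σ z` goes to register 2 -/
def xorC (decS decT : Cmd) : Cmd :=
  .seq (Cmd.copy 0 100 30) (.seq decS (.seq (.ite 100 .nop .nop (.push 2 true))
    (.seq (Cmd.clear 100) (.seq (Cmd.copy 0 100 30) (.seq decT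
      (.ite 100 .nop .nop (.ite 2 (.push 2 true) .nop (Cmd.clear 2))))))))

theorem xorC_spec {decS decT : Cmd} {χ σ : List Bool → Bool} {TS TT : ℕ → ℕ}
    (hS : DecSpec (fun x : List Bool => x) χ decS TS)
    (hT : DecSpec (fun x : List Bool => x) σ decT TT) (z w : List Bool) :
    (xorC decS decT).eval (init2 z w) 2 = flag (xor (χ z) (σ z)) ∧
    (xorC decS decT).LB (z.length + TS z.length + TT z.length + 1) (init2 z w) := by
  set s : St := init2 z w with hs
  have s0 : s 0 = z := by simp [hs, init2]
  have sne : ∀ r, 2 ≤ r → s r = [] := fun r hr => by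
    simp only [hs, init2]
    rw [if_neg (by omega), if_neg (by omega)]
  have e1 : (Cmd.copy 0 100 30).eval s = update s 100 z := by
    rw [Cmd.eval_copy (by norm_num) (by norm_num) (by norm_num) (sne _ (by norm_num)), s0,
      sne 100 (by norm_num), List.append_nil]
  obtain ⟨l2, e2⟩ := hS.spec z (update s 100 z) (by
    intro r hr
    rw [update_of_ne (by omega)]
    exact sne r (by omega)) (by simp)
  rw [update_idem] at e2
  have e3 : (Cmd.ite 100 .nop .nop (.push 2 true)).eval (update s 100 (flag (χ z))) =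
      update (update s 2 (flag (χ z))) 100 (flag (χ z)) := by
    cases χ z
    · have y : (update s 100 (flag false)) 100 = [] := by simp
      simp only [Cmd.eval, y]
      funext x
      by_cases q1 : x = 2
      · subst q1; simp [sne 2 le_rfl]
      · by_cases q2 : x = 100
        · subst q2; simp
        · simp [q1, q2]
    · have y : (update s 100 (flag true)) 100 = [true] := by simp
      simp only [Cmd.eval, y]
      funext x
      by_cases q1 : x = 2
      · subst q1; simp [sne 2 le_rfl]
      · by_cases q2 : x = 100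
        · subst q2; simp
        · simp [q1, q2]
  have e4 : (Cmd.clear 100).eval (update (update s 2 (flag (χ z))) 100 (flag (χ z))) =
      update s 2 (flag (χ z)) := by
    rw [Cmd.eval_clear, update_idem]
    funext x
    by_cases q2 : x = 100
    · subst q2; simp [sne 100 (by norm_num)]
    · simp [q2]
  have e5 : (Cmd.copy 0 100 30).eval (update s 2 (flag (χ z))) =
      update (update s 2 (flag (χ z))) 100 z := by
    rw [Cmd.eval_copy (by norm_num) (by norm_num) (by norm_num) (by
      rw [update_of_ne (by norm_num)]; exact sne _ (by norm_num))]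
    congr 1
    rw [update_of_ne (by norm_num), update_of_ne (by norm_num), s0, sne 100 (by norm_num),
      List.append_nil]
  obtain ⟨l6, e6⟩ := hT.spec z (update (update s 2 (flag (χ z))) 100 z) (by
    intro r hr
    rw [update_of_ne (by omega), update_of_ne (by omega)]
    exact sne r (by omega)) (by simp)
  rw [update_idem] at e6
  constructor
  · rw [xorC]
    simp only [Cmd.eval_seq]
    rw [e1, e2, e3, e4, e5, e6]
    cases χ z <;> cases σ z <;> simp [Cmd.eval, flag]
  · rw [xorC]
    simp only [Cmd.LB_seq]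
    rw [e1, e2, e3, e4, e5, e6]
    refine ⟨?_, l2.mono (by omega), ?_, ?_, ?_, l6.mono (by omega), ?_⟩
    · exact Cmd.LB_copy (by norm_num) (by norm_num) (by norm_num) (sne _ (by norm_num))
        (by rw [s0]; omega)
    · simp only [Cmd.LB]
      split <;> trivial
    · apply Cmd.LB_clear
      rw [update_self]
      have : (flag (χ z)).length ≤ 1 := by cases χ z <;> simp [flag]
      omega
    · apply Cmd.LB_copy (by norm_num) (by norm_num) (by norm_num)
      · rw [update_of_ne (by norm_num)]; exact sne _ (by norm_num)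
      · rw [update_of_ne (by norm_num), s0]; omega
    · simp only [Cmd.LB]
      split
      · trivial
      · trivial
      · split
        · trivial
        · trivial
        · apply Cmd.LB_clear
          rw [update_of_ne (by norm_num), update_self]
          have : (flag (χ z)).length ≤ 1 := by cases χ z <;> simp [flag]
          omega

/-- With an exact decision procedure for SAT the search finds an accepted word. -/
theorem search_exact {χ : List Bool → Bool} {Cn B : ℕ} {ψ : BForm} {Acc : List Bool → Prop}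
    (hb : Base Cn B ψ Acc) (hS : ∀ φ : BForm, χ φ.code = true ↔ φ.Satf) (j : ℕ) :
    ∀ (n : ℕ) (X : List Bool), X.length + n = B + 1 → (prefF Cn ψ X).Satf →
      Acc (search χ (fun x => x) Cn ψ j n X)
  | 0, X, hX, hs => absurd hs (hb.not_long (by omega))
  | n + 1, X, hX, hs => by
    by_cases h0 : χ (endF Cn ψ X).code = true
    · simp only [search, h0, if_true]
      exact hb.end_acc (by omega) ((hS _).1 h0)
    by_cases h1 : χ (bitF Cn ψ X true).code = true
    · have h := search_exact hb hS j n (X ++ [true]) (by simp; omega)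
        (Base.bit_pref ((hS _).1 h1))
      simp only [search, h0, h1, if_true, Bool.false_eq_true, if_false]
      exact h
    by_cases h2 : χ (bitF Cn ψ X false).code = true
    · have h := search_exact hb hS j n (X ++ [false]) (by simp; omega)
        (Base.bit_pref ((hS _).1 h2))
      simp only [search, h0, h1, h2, if_true, Bool.false_eq_true, if_false]
      exact h
    exfalso
    rcases hb.cases (by omega) hs with h | h | h
    · exact h0 ((hS _).2 h)
    · exact h1 ((hS _).2 h)
    · exact h2 ((hS _).2 h)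

/-- If SAT is in P, then a polynomial time set that agrees with SAT on the Kolmogorov-simple words
agrees with SAT on all long words. -/
theorem large_agree {U : TM2ComputableAux Bool Bool} (hU : IsUniversal U) {g G : ℕ → ℕ}
    (hg : GrowG g) (hG : GrowT G) {S : Set (List Bool)} (hSP : InP S) (hSAT : InP SAT)
    (hK : ∀ x ∈ KClass U g G, (x ∈ S ↔ x ∈ SAT)) :
    ∃ n0, ∀ z : List Bool, n0 ≤ z.length → (z ∈ S ↔ z ∈ SAT) := by
  classical
  obtain ⟨χ, hχ, hχP⟩ := hSP
  obtain ⟨σ, hσ, hσP⟩ := hSAT
  obtain ⟨decS, TS, hS'⟩ := exists_decSpec id χ hχP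
  have hS : DecSpec (fun x : List Bool => x) χ decS TS := hS'
  obtain ⟨decT, TT, hT'⟩ := exists_decSpec id σ hσP
  have hT : DecSpec (fun x : List Bool => x) σ decT TT := hT'
  set W := xorC decS decT with hW
  have okW : W.ok = true := by
    simp only [hW, xorC, Cmd.ok, hS.ok, hT.ok, Cmd.ok_clear, Bool.and_self, Bool.and_true,
      Bool.true_and, Cmd.copy, Cmd.mv, Cmd.mv2, Cmd.wr]
    decide
  set TW : ℕ → ℕ := fun n => n + TS n + TT n + 1 with hTW
  have hTWPB : PB TW := ((PB.id.add hS.pb).add hT.pb).add (PB.const 1)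
  have hTWmono : Monotone TW := by
    intro a b hab
    have h1 := hS.mono hab
    have h2 := hT.mono hab
    simp only [hTW]
    omega
  have Wspec : ∀ z w, W.eval (init2 z w) 2 = flag (xor (χ z) (σ z)) ∧
      W.LB (TW z.length) (init2 z w) := fun z w => xorC_spec hS hT z w
  obtain ⟨b0, hb0mono, hb0⟩ := (show PB fun n => n + W.tb (TW n) + 1 from
      ((PB.id.add ((PB.tb W).comp hTWPB)).add (PB.const 1))).exists_poly
  obtain ⟨bW, hbWmono, hbW⟩ := (show PB fun N => N + b0.eval (N * N) + 1 from
      ((PB.id.add ((PB.poly b0).comp (PB.id.mul PB.id))).add (PB.const 1))).exists_poly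
  set BW : ℕ → ℕ := fun n => bW.eval n with hBW
  have hBWPB : PB BW := PB.poly bW
  set kW := max W.bd 3 with hkW
  set Cn := nCh W.code kW with hCn
  have Wtime : ∀ (N : ℕ) (z : List Bool), z.length ≤ N * N →
      max z.length ([] : List Bool).length + W.time (init2 z []) ≤ BW N := by
    intro N z hz
    have h1 := Cmd.time_le_tb (Wspec z []).2
    have h3 := hb0 z.length
    have h4 : b0.eval z.length ≤ b0.eval (N * N) := hb0mono hz
    have h5 := hbW N
    simp only [hBW]
    simp only [List.length_nil]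
    omega
  set ψ : ℕ → BForm := fun N => addF (nonEmptyC Cn N) (tabF W.code kW 2 (BW N)) with hψ
  have hNB : ∀ N, N ≤ BW N := by
    intro N
    have := hbW N
    simp only [hBW]; omega
  have hbase : ∀ N, Base Cn (BW N) (ψ N) (fun z => N ≤ z.length ∧ xor (χ z) (σ z) = true) := by
    intro N
    refine ⟨fun v hv => ?_⟩
    rw [hψ, eval_addF] at hv
    obtain ⟨z, w, hz, -, hcell, hacc⟩ := tabF_sound okW (le_max_left _ _)
      (by omega) (by omega) (by have := hbW N; simp only [hBW]; omega) hv.2
    rw [(Wspec z w).1, flag_zero] at hacc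
    refine ⟨z, hz, ⟨?_, hacc⟩, hcell⟩
    by_contra hcon
    have hlt : z.length < N := by omega
    obtain ⟨l, hl, hlv⟩ := hv.1 [(true, z.length * Cn + 0), (true, z.length * Cn + 1)] (by
      rw [nonEmptyC, mem_seqC]
      exact ⟨z.length, hlt, by simp⟩)
    have hNB' := hNB N
    have hno : ∀ b : Bool, nval v (z.length * Cn + b.toNat) = false := by
      intro b
      rcases hc : nval v (z.length * Cn + b.toNat) with _ | _
      · rfl
      · have := (hcell z.length (by omega) b).1 hc
        simp at this
    simp only [List.mem_cons, List.not_mem_nil, or_false] at hl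
    rcases hl with rfl | rfl
    · exact Bool.false_ne_true ((hno false).symm.trans hlv)
    · exact Bool.false_ne_true ((hno true).symm.trans hlv)
  have hSf : ∀ φ : BForm, σ φ.code = true ↔ φ.Satf := by
    intro φ
    rw [hσ]
    constructor
    · rintro ⟨φ', h1, v, hv⟩
      exact ⟨v, by rw [← code_injective h1]; exact hv⟩
    · intro h
      exact code_mem_SAT h
  -- the machine
  obtain ⟨cW, TcW, hcW⟩ := exists_polySpec bW (n := 12) (d := 10) (by norm_num) (by norm_num)
    (by norm_num)
  obtain ⟨gT', TG', hGen'⟩ := exists_genSpec W.code kW 2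
  obtain ⟨gN, TN, hN⟩ := exists_neSpec Cn
  obtain ⟨gP', TP', hP'⟩ := exists_prefSpec Cn
  obtain ⟨gE, TE, hE⟩ := exists_endSpec
  obtain ⟨g1, T1, h1⟩ := exists_bitSpec true
  obtain ⟨g0, T0, h0⟩ := exists_bitSpec false
  have hfv : ∀ s : St, Scr s → s 9 = [] → s 10 = [] →
      (Cmd.copy 11 9 30).eval s = update s 9 ((fun x : List Bool => x) (s 11)) ∧
      (Cmd.copy 11 9 30).LB ((fun n : ℕ => n) (s 11).length) s ∧
      ((fun x : List Bool => x) (s 11)).length ≤ (fun n : ℕ => n) (s 11).length := by
    intro s hs h9 h10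
    refine ⟨?_, ?_, le_rfl⟩
    · rw [Cmd.eval_copy (by norm_num) (by norm_num) (by norm_num) (hs 30 (by omega)), h9,
        List.append_nil]
    · exact Cmd.LB_copy (by norm_num) (by norm_num) (by norm_num) (hs 30 (by omega)) le_rfl
  obtain ⟨M, h, hh, hmono, hout⟩ := exists_machine (j := 0) (clJ := endC)
    (f := fun x : List Bool => x) (Lf := fun n : ℕ => n) hBWPB hcW hGen' hN hP'
    hE h1 h0 hE (Or.inl ⟨rfl, rfl⟩) hT hfv (fun a b hab => hab) PB.id
    (show (Cmd.copy 11 9 30).ok = true by decide) (by decide) (ψ := ψ) (fun N => rfl)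
  obtain ⟨i0, hi0⟩ := mem_K hU hg hG M hh hmono
  set I := max i0 1 with hI
  refine ⟨2 ^ 2 ^ I, fun z hz => ?_⟩
  by_contra hcon
  have hx : xor (χ z) (σ z) = true := by
    rcases hc : χ z with _ | _ <;> rcases hc' : σ z with _ | _
    · exfalso
      apply hcon
      rw [← hχ z, ← hσ z, hc, hc']
    · rfl
    · rfl
    · exfalso
      apply hcon
      rw [← hχ z, ← hσ z, hc, hc']
  set i := Nat.log 2 (Nat.log 2 z.length) with hi
  have hz0 : z.length ≠ 0 := by
    have : 0 < 2 ^ 2 ^ I := by positivity
    omega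
  have hz1 : 2 ^ I ≤ Nat.log 2 z.length := Nat.le_log_of_pow_le (by norm_num) hz
  have hz2 : Nat.log 2 z.length ≠ 0 := by
    have : 0 < 2 ^ I := by positivity
    omega
  have hile : I ≤ i := Nat.le_log_of_pow_le (by norm_num) hz1
  have hlo : 2 ^ 2 ^ i ≤ z.length :=
    (Nat.pow_le_pow_right (by norm_num) (Nat.pow_log_le_self 2 hz2)).trans
      (Nat.pow_log_le_self 2 hz0)
  have hhi1 : Nat.log 2 z.length < 2 ^ (i + 1) := Nat.lt_pow_succ_log_self (by norm_num) _
  have hhi : z.length < 2 ^ 2 ^ (i + 1) :=
    (Nat.lt_pow_succ_log_self (by norm_num) _).trans_le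
      (Nat.pow_le_pow_right (by norm_num) hhi1)
  have hhi' : z.length ≤ 2 ^ 2 ^ i * 2 ^ 2 ^ i := by
    rw [← pow_add, ← two_mul, ← pow_succ']
    exact hhi.le
  obtain ⟨v, hv, hcell⟩ := tabF_complete (k := kW) (acc := 2) okW (le_max_left _ _)
    (by omega) (z := z) (w := []) (Wtime (2 ^ 2 ^ i) z hhi')
    (by rw [(Wspec z []).1, flag_zero]; exact hx)
  have hsat : (ψ (2 ^ 2 ^ i)).Satf := by
    refine ⟨v, ?_⟩
    simp only [hψ]
    rw [eval_addF]
    refine ⟨fun C hC => ?_, hv⟩
    rw [nonEmptyC, mem_seqC] at hC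
    obtain ⟨m, hm, hC⟩ := hC
    simp only [List.mem_singleton] at hC
    subst hC
    have hmz : m < z.length := by omega
    have hb := (hcell m (by have := hNB (2 ^ 2 ^ i); omega) z[m]).2
      (List.getElem?_eq_getElem hmz)
    rw [zero_add]
    cases hzm : z[m]
    · rw [hzm, Bool.toNat_false] at hb
      exact ⟨_, List.mem_cons_self, hb⟩
    · rw [hzm, Bool.toNat_true] at hb
      exact ⟨_, List.mem_cons_of_mem _ List.mem_cons_self, hb⟩
  have hacc : (fun z : List Bool => 2 ^ 2 ^ i ≤ z.length ∧ xor (χ z) (σ z) = true)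
      (refuter σ (fun x => x) Cn (ψ (2 ^ 2 ^ i)) 0 (BW (2 ^ 2 ^ i))) := by
    have hc : σ (ψ (2 ^ 2 ^ i)).code = true := (hSf _).2 hsat
    simp only [refuter, hc, if_true]
    exact search_exact (hbase _) hSf 0 (BW (2 ^ 2 ^ i) + 1) [] (by simp)
      (by simpa [prefF, prefC, addF] using hsat)
  obtain ⟨y, hy, hyl⟩ := exists_bval i (by omega)
  have hKx : refuter σ (fun x => x) Cn (ψ (2 ^ 2 ^ i)) 0 (BW (2 ^ 2 ^ i)) ∈ KClass U g G :=
    hi0 i (by omega) y _ hyl hacc.1 (hout i (by omega) y hy hyl)
  have hfin := hK _ hKx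
  rw [← hχ, ← hσ] at hfin
  have hx2 := hacc.2
  revert hfin hx2
  cases χ (refuter σ (fun x => x) Cn (ψ (2 ^ 2 ^ i)) 0 (BW (2 ^ 2 ^ i))) <;>
    cases σ (refuter σ (fun x => x) Cn (ψ (2 ^ 2 ^ i)) 0 (BW (2 ^ 2 ^ i))) <;> simp

/-- Rigidity. -/
theorem rigid {U : TM2ComputableAux Bool Bool} (hU : IsUniversal U) {g G : ℕ → ℕ}
    (hg : GrowG g) (hG : GrowT G) {S : Set (List Bool)} (hSP : InP S)
    (hK : ∀ x ∈ KClass U g G, (x ∈ S ↔ x ∈ SAT)) :
    ∃ n0, ∀ z : List Bool, n0 ≤ z.length → (z ∈ S ↔ z ∈ SAT) :=
  large_agree hU hg hG hSP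
    (inP_of_agree hU hg hG hSP hK Pool.Agent.Helper4.SatNP.sat_inNP) hK

end Pool.Agent.Helper70.AC
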